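import Mathlib
import Pool.Agent.N792.T9
import Pool.Agent.N511.LL.I0
import Pool.Agent.N511.LL.B

/-!
# Many primes in one row `x² + b x + a`, `β x^θ ≤ a`, `a + 1 ≤ γ x^θ` (helper13)
-/

set_option autoImplicit false

namespace Pool.Agent.P8H13.OP

open Finset Filter Topology
open Pool.Agent.N792 (Vc V1 partialC Admissible eps gcdProd fv t9 x8 li_asym)
open Pool.Agent.N511.LL.I0aux (T_eq T_split gcd_val)
open Pool.Agent.N511.LL (T PP PR loc)

/-- the left end point `x² + b x` of the row -/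
def q (b : ℤ) (x : ℕ) : ℕ := ((x : ℤ) ^ 2 + b * x).toNat

/-- the elements `a` of the row -/
noncomputable def Row (b : ℤ) (θ β γ : ℝ) (x : ℕ) : Finset ℕ :=
  by classical exact (range (x + 1)).filter (fun a : ℕ => β * (x : ℝ) ^ θ ≤ a ∧ (a : ℝ) + 1 ≤ γ * (x : ℝ) ^ θ ∧
    (q b x + a).Prime)

theorem q_cast (b : ℤ) (hb : b = 0 ∨ b = -1) (x : ℕ) : ((q b x : ℕ) : ℤ) = (x : ℤ) ^ 2 + b * x := by
  unfold q
  apply Int.toNat_of_nonneg
  rcases hb with rfl | rfl
  · positivity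
  · have h : (x : ℤ) ≤ (x : ℤ) ^ 2 := by
      have : x ≤ x ^ 2 := Nat.le_self_pow (by norm_num) x
      exact_mod_cast this
    linarith

theorem fv_nat (b : ℤ) (hb : b = 0 ∨ b = -1) (x a : ℕ) : (fv 1 b (a : ℤ) x).toNat = q b x + a := by
  have h : fv 1 b (a : ℤ) x = ((q b x + a : ℕ) : ℤ) := by
    push_cast
    rw [q_cast b hb]
    unfold fv
    ring
  rw [h, Int.toNat_natCast]

theorem eps_ge (b : ℤ) : 1 ≤ eps 1 b := by
  unfold eps
  split_ifs <;> norm_num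

theorem adm' (b : ℤ) (hb : b = 0 ∨ b = -1) (c : ℕ) (hc : Odd c) : Admissible 1 b (c : ℤ) := by
  refine ⟨one_pos, fun d hd _ _ => isUnit_of_dvd_one hd, ?_, ?_⟩
  · rintro ⟨-, h'⟩
    obtain ⟨k, hk⟩ := hc
    omega
  · rintro ⟨r, hr⟩
    have h1 : (1 : ℤ) ≤ c := by
      obtain ⟨k, hk⟩ := hc
      omega
    have h2 := mul_self_nonneg r
    rcases hb with rfl | rfl
    · nlinarith
    · nlinarith

/-- the product of the local factors over the odd primes `p ≤ w` is at least `1 / w` -/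
theorem T_ge (d : ℤ) (w : ℕ) (hw : 2 ≤ w) : 1 / (w : ℝ) ≤ T d w := by
  have key : ∀ w : ℕ, 2 ≤ w → 1 / ((w : ℝ) - 1) ≤ ∏ j ∈ Icc 3 w, (1 - 1 / ((j : ℝ) - 1)) := by
    intro w hw
    induction w, hw using Nat.le_induction with
    | base => norm_num
    | succ n hn ih =>
      rw [Finset.prod_Icc_succ_top (by omega)]
      have hn2 : (2 : ℝ) ≤ n := by exact_mod_cast hn
      have h1 : 0 ≤ 1 - 1 / (((n + 1 : ℕ) : ℝ) - 1) := by
        push_cast
        rw [sub_nonneg, div_le_one (by linarith)]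
        linarith
      refine le_trans ?_ (mul_le_mul_of_nonneg_right ih h1)
      push_cast
      rw [show (n : ℝ) + 1 - 1 = n by ring]
      have h2 : 1 / ((n : ℝ) - 1) * (1 - 1 / (n : ℝ)) = 1 / n := by
        have h3 : (n : ℝ) - 1 ≠ 0 := by
          intro h
          linarith
        have h4 : (n : ℝ) ≠ 0 := by
          intro h
          linarith
        field_simp
      rw [h2]
  have hw1 : (2 : ℝ) ≤ w := by exact_mod_cast hw
  have hw2 : 1 / (w : ℝ) ≤ 1 / ((w : ℝ) - 1) := one_div_le_one_div_of_le (by linarith) (by linarith)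
  refine (hw2.trans (key w hw)).trans ?_
  unfold T PP
  have hsub : (Icc 3 w).filter Nat.Prime ⊆ Icc 3 w := filter_subset _ _
  have h3 : ∀ j ∈ Icc 3 w, 0 ≤ 1 - 1 / ((j : ℝ) - 1) ∧ 1 - 1 / ((j : ℝ) - 1) ≤ 1 := by
    intro j hj
    have hj3 : (3 : ℝ) ≤ j := by exact_mod_cast (mem_Icc.1 hj).1
    constructor
    · rw [sub_nonneg, div_le_one (by linarith)]
      linarith
    · have : 0 ≤ 1 / ((j : ℝ) - 1) := by
        apply div_nonneg zero_le_one
        linarith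
      linarith
  calc ∏ j ∈ Icc 3 w, (1 - 1 / ((j : ℝ) - 1))
      = (∏ j ∈ Icc 3 w \ (Icc 3 w).filter Nat.Prime, (1 - 1 / ((j : ℝ) - 1))) *
        ∏ j ∈ (Icc 3 w).filter Nat.Prime, (1 - 1 / ((j : ℝ) - 1)) := (prod_sdiff hsub).symm
    _ ≤ 1 * ∏ j ∈ (Icc 3 w).filter Nat.Prime, (1 - 1 / ((j : ℝ) - 1)) := by
        apply mul_le_mul_of_nonneg_right
        · apply prod_le_one
          · intro j hj
            exact (h3 j (mem_sdiff.1 hj).1).1
          · intro j hj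
            exact (h3 j (mem_sdiff.1 hj).1).2
        · exact prod_nonneg fun j hj => (h3 j (hsub hj)).1
    _ ≤ _ := by
        rw [one_mul]
        apply Finset.prod_le_prod
        · intro j hj
          exact (h3 j (hsub hj)).1
        · intro j hj
          have hj3 : (3 : ℝ) ≤ j := by exact_mod_cast (mem_Icc.1 (hsub hj)).1
          have h4 : (jacobiSym d j : ℝ) ≤ 1 := by
            rcases jacobiSym.trichotomy d j with h | h | h <;> rw [h] <;> norm_num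
          have h5 : (jacobiSym d j : ℝ) / ((j : ℝ) - 1) ≤ 1 / ((j : ℝ) - 1) :=
            div_le_div_of_nonneg_right h4 (by linarith)
          unfold loc
          linarith

/-- the good constant terms `a` -/
def GoodC (b : ℤ) (s η : ℝ) (N M a : ℕ) : Prop :=
  ∃ S : ℝ, s ≤ S ∧ 3 / 4 * (eps 1 b * S * gcdProd 1 b *
      ∑ m ∈ Ioc N M, 1 / Real.log (((1 : ℤ) : ℝ) * m ^ 2 + b * m + a)) -
        η * (eps 1 b * S * gcdProd 1 b * M / Real.log M) ≤
      (((Ioc N M).filter (fun m : ℕ => (fv 1 b (a : ℤ) m).toNat.Prime)).card : ℝ)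

/-- the number of the good constant terms: there is `s > 0` such that most odd `a` of an interval of
`2 H` integers are good -/
theorem good_terms (b : ℤ) (hb : b = 0 ∨ b = -1) : ∃ s : ℝ, 0 < s ∧ ∀ ε η : ℝ, 0 < ε → 0 < η →
    ∃ M₀ : ℕ, ∀ M : ℕ, M₀ ≤ M → ∀ C : ℕ, (M : ℝ) ^ (7 / 10 + ε) ≤ C → C ≤ M →
      ∀ N A H : ℕ, N ≤ M → 1 ≤ A → A + 2 * H ≤ C → (M : ℝ) ^ (7 / 10 : ℝ) ≤ H →
        ∃ Bad : Finset ℕ, (Bad.card : ℝ) ≤ H / 4 + η * C ∧
          ∀ a : ℕ, A ≤ a → a < A + 2 * H → Odd a → a ∉ Bad → GoodC b s η N M a := by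
  classical
  obtain ⟨y, hy2, hy⟩ := Pool.Agent.N511.LL.b2 (1 / 8) (by norm_num)
  have hy0 : (0 : ℝ) < y := by exact_mod_cast (by omega : 0 < y)
  refine ⟨1 / (4 * y), by positivity, fun ε η hε hη => ?_⟩
  obtain ⟨x1, hx1⟩ := t9 1 one_pos b ε (η / 2) hε (by positivity)
  obtain ⟨x2, hx2⟩ := x8 1 one_pos b 1 13
  obtain ⟨x4, hx4⟩ := eventually_atTop.1 (Pool.Agent.N792.Shp.log_ge (2 + 2 / η + y))
  obtain ⟨x5, hx5⟩ := eventually_atTop.1 (Pool.Agent.N792.Shp.log_pow_le 13 1 (1 / 5) (by norm_num))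
  refine ⟨x1 + x2 + x4 + x5 + 2, fun M hM C hC1 hC2 N A H hNM hA hAC hH => ?_⟩
  have b4 := hx4 M (by omega)
  have b5 := hx5 M (by omega)
  rw [one_mul] at b5
  obtain ⟨L, hL⟩ : ∃ L : ℝ, L = Real.log M := ⟨_, rfl⟩
  have hM0 : (0 : ℝ) < M := by exact_mod_cast (by omega : 0 < M)
  have hM1 : (1 : ℝ) ≤ M := by exact_mod_cast (by omega : 1 ≤ M)
  rw [← hL] at b4 b5
  have hinv : 0 < 2 / η := by positivity
  have hL2 : 2 ≤ L := by linarith
  have hLη : 2 / η ≤ L := by linarith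
  have hLy : (y : ℝ) ≤ L := by linarith
  have hL0 : 0 < L := by linarith
  -- the parameter `w`
  obtain ⟨w, hw⟩ : ∃ w : ℕ, w = ⌈L ^ 12⌉₊ := ⟨_, rfl⟩
  have hw1 : L ^ 12 ≤ w := by rw [hw]; exact Nat.le_ceil _
  have hL12 : 1 ≤ L ^ 12 := one_le_pow₀ (by linarith)
  have hw2 : (w : ℝ) ≤ L ^ 13 := by
    have h1 : (w : ℝ) < L ^ 12 + 1 := by
      rw [hw]
      exact Nat.ceil_lt_add_one (by positivity)
    have h2 : L ^ 13 = L * L ^ 12 := by ring
    rw [h2]
    nlinarith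
  have hw3 : (w : ℝ) ≤ (M : ℝ) ^ (1 / 5 : ℝ) := hw2.trans b5
  have hyw : y ≤ w := by
    have h1 : (y : ℝ) ≤ w := by
      have h2 : L ≤ L ^ 12 := le_self_pow₀ (by linarith) (by norm_num)
      linarith
    exact_mod_cast h1
  have hw2' : 2 ≤ w := hy2.trans hyw
  have hwH : w ^ 3 ≤ 2 * H := by
    have h1 : ((w : ℝ)) ^ 3 ≤ H := by
      calc (w : ℝ) ^ 3 ≤ ((M : ℝ) ^ (1 / 5 : ℝ)) ^ 3 := pow_le_pow_left₀ (by positivity) hw3 3
        _ = (M : ℝ) ^ (3 / 5 : ℝ) := by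
            rw [← Real.rpow_natCast, ← Real.rpow_mul hM0.le]
            norm_num
        _ ≤ (M : ℝ) ^ (7 / 10 : ℝ) := Real.rpow_le_rpow_of_exponent_le hM1 (by norm_num)
        _ ≤ H := hH
    have h2 : w ^ 3 ≤ H := by exact_mod_cast h1
    omega
  have hC12 : (M : ℝ) ^ (1 / 2 : ℝ) ≤ C :=
    (Real.rpow_le_rpow_of_exponent_le hM1 (by linarith)).trans hC1
  have hC0 : (0 : ℝ) < C := lt_of_lt_of_le (Real.rpow_pos_of_pos hM0 _) hC12
  obtain ⟨E1, -, hE1b, hE1c⟩ := hx1 M (by omega) C hC1 hC2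
  obtain ⟨E2, -, hE2b, hE2c⟩ := hx2 M (by omega) C hC12 hC2 w w (by rw [← hL]; exact hw1)
    (by rw [← hL]; exact hw2) le_rfl hw3
  rw [← hL, pow_one] at hE2b
  have hB3 := hy y le_rfl w hyw (2 * H) hwH 4 (b ^ 2 - 4 * ((A + 2 * H - 1 : ℕ) : ℤ)) (by norm_num)
  obtain ⟨B, hBd⟩ : ∃ B : Finset ℕ, B = (range (2 * H)).filter (fun i : ℕ => 1 / 8 < |∏ p ∈ PR 4 y w,
    loc ((b ^ 2 - 4 * ((A + 2 * H - 1 : ℕ) : ℤ)) + ((4 : ℕ) : ℤ) * i) p - 1|) := ⟨_, rfl⟩
  have hB4 : (B.card : ℝ) ≤ H / 4 := by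
    rw [hBd]
    refine hB3.trans ?_
    push_cast
    linarith
  obtain ⟨E3, hE3⟩ : ∃ E3 : Finset ℕ, E3 = B.image (fun i => A + 2 * H - 1 - i) := ⟨_, rfl⟩
  have hE3b : (E3.card : ℝ) ≤ H / 4 := by
    refine le_trans ?_ hB4
    rw [hE3]
    exact_mod_cast card_image_le
  refine ⟨E1 ∪ E2 ∪ E3, ?_, ?_⟩
  · have h1 : ((E1 ∪ E2 ∪ E3).card : ℝ) ≤ E1.card + E2.card + E3.card := by
      have h2 := ((card_union_le (E1 ∪ E2) E3).trans (Nat.add_le_add_right (card_union_le E1 E2) _))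
      exact_mod_cast h2
    have h2 : (C : ℝ) / L ≤ η / 2 * C := by
      rw [div_le_iff₀ hL0]
      have h4 : 2 ≤ η * L := by
        rw [div_le_iff₀ hη] at hLη
        linarith
      nlinarith
    linarith
  · intro a ha1 ha2 ho haE
    rw [mem_union, mem_union, not_or, not_or] at haE
    obtain ⟨⟨g1, g2⟩, g3⟩ := haE
    have haI : a ∈ Icc 1 C := mem_Icc.2 ⟨by omega, by omega⟩
    have hadm := adm' b hb a ho
    obtain ⟨S, hS0, hSt, hb1⟩ := hE1c a haI g1 hadm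
    obtain ⟨-, hX8⟩ := hE2c a haI g2
    obtain ⟨S', hS0', hSt', hb2⟩ := hX8 hadm
    have hSS : S' = S := tendsto_nhds_unique hSt' hSt
    have heps : 0 < eps 1 b := lt_of_lt_of_le one_pos (eps_ge b)
    rw [hSS, Pool.Agent.N792.SingTail.V_ratio hadm hw2' (by exact_mod_cast (by omega : 1 ≤ w)), gcd_val,
      ← hL, pow_one, mul_one, mul_one, T_eq] at hb2
    obtain ⟨D, hD⟩ : ∃ D : ℤ, D = b ^ 2 - 4 * a := ⟨_, rfl⟩
    rw [← hD] at hb2
    have hP : |∏ p ∈ PR 4 y w, loc D p - 1| ≤ 1 / 8 := by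
      by_contra h1
      push Not at h1
      apply g3
      rw [hE3, mem_image]
      refine ⟨A + 2 * H - 1 - a, ?_, by omega⟩
      rw [hBd, mem_filter, mem_range]
      refine ⟨by omega, ?_⟩
      have e : (b ^ 2 - 4 * ((A + 2 * H - 1 : ℕ) : ℤ)) + ((4 : ℕ) : ℤ) * ((A + 2 * H - 1 - a : ℕ) : ℤ) = D := by
        rw [hD, Nat.cast_sub (show a ≤ A + 2 * H - 1 by omega), Nat.cast_ofNat]
        ring
      rw [e]
      exact h1
    have hT : 1 / (2 * (y : ℝ)) ≤ T D w := by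
      rw [T_split D hy2 hyw]
      have h1 := T_ge D y hy2
      have h2 : 1 / 2 ≤ ∏ p ∈ PR 4 y w, loc D p := by
        have := (abs_le.1 hP).1
        linarith
      have h3 : 1 / (2 * (y : ℝ)) = 1 / y * (1 / 2) := by
        field_simp
      rw [h3]
      exact mul_le_mul h1 h2 (by norm_num) ((by positivity : (0 : ℝ) ≤ 1 / y).trans h1)
    have hT0 : 0 < T D w := lt_of_lt_of_le (by positivity) hT
    have hST : T D w / 2 ≤ S := by
      obtain ⟨h1, -⟩ := abs_le.1 hb2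
      have h2 : eps 1 b * T D w / L ≤ eps 1 b * T D w / 2 :=
        div_le_div_of_nonneg_left (by positivity) (by norm_num) hL2
      have h3 : eps 1 b * (T D w / 2) ≤ eps 1 b * S := by
        have e : eps 1 b * (T D w / 2) = eps 1 b * T D w - eps 1 b * T D w / 2 := by ring
        rw [e]
        linarith
      exact le_of_mul_le_mul_left h3 heps
    refine ⟨S, ?_, ?_⟩
    · refine le_trans ?_ hST
      have h4 : 1 / (4 * (y : ℝ)) = 1 / (2 * y) / 2 := by
        field_simp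
        norm_num
      rw [h4]
      exact div_le_div_of_nonneg_right hT (by norm_num)
    · have h5 := hb1 N M hNM le_rfl
      have h6 : 0 ≤ eps 1 b * S * gcdProd 1 b * M / Real.log M := by
        rw [gcd_val, ← hL]
        positivity
      refine le_trans ?_ h5
      apply sub_le_sub_left
      apply mul_le_mul_of_nonneg_right _ h6
      linarith

end Pool.Agent.P8H13.OP
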