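import Mathlib

/-!
# Two lemmas of measure theory: a lower bound for unions, and sets meeting all intervals (helper13)
-/

set_option autoImplicit false

namespace Pool.Agent.P8H13.OP

open Finset Filter Topology MeasureTheory

/-- a lower bound for the measure of a union (Chung-Erdős, linear form) -/
theorem chung {ι : Type} (I : Finset ι) (F : ι → Set ℝ) (hm : ∀ i, MeasurableSet (F i))
    (hfin : ∀ i, volume (F i) ≠ ⊤) (M : ℝ) (hM : 0 < M) :
    2 / M * ∑ i ∈ I, (volume (F i)).toReal -
      1 / M ^ 2 * ∑ i ∈ I, ∑ j ∈ I, (volume (F i ∩ F j)).toReal ≤ (volume (⋃ i ∈ I, F i)).toReal := by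
  classical
  have hmU : MeasurableSet (⋃ i ∈ I, F i) := Finset.measurableSet_biUnion I fun i _ => hm i
  have hfinU : volume (⋃ i ∈ I, F i) ≠ ⊤ := by
    refine ne_top_of_le_ne_top ?_ (measure_biUnion_finset_le I F)
    exact ENNReal.sum_ne_top.2 fun i _ => hfin i
  have hfin2 : ∀ i j, volume (F i ∩ F j) ≠ ⊤ := fun i j =>
    ne_top_of_le_ne_top (hfin i) (measure_mono Set.inter_subset_left)
  have hint : ∀ s : Set ℝ, MeasurableSet s → volume s ≠ ⊤ →
      Integrable (s.indicator (fun _ => (1 : ℝ))) volume ∧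
        ∫ x, s.indicator (fun _ => (1 : ℝ)) x = (volume s).toReal := by
    intro s hs hs2
    constructor
    · exact (integrable_indicator_iff hs).2 (integrableOn_const hs2)
    · rw [integral_indicator hs, setIntegral_const, smul_eq_mul, mul_one]
      rfl
  have h1 : Integrable (fun x => 2 / M * ∑ i ∈ I, (F i).indicator (fun _ => (1 : ℝ)) x) volume :=
    (integrable_finsetSum I fun i _ => (hint (F i) (hm i) (hfin i)).1).const_mul _
  have h2 : Integrable (fun x => 1 / M ^ 2 * ∑ i ∈ I, ∑ j ∈ I,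
      (F i ∩ F j).indicator (fun _ => (1 : ℝ)) x) volume :=
    (integrable_finsetSum I fun i _ => integrable_finsetSum I fun j _ =>
      (hint (F i ∩ F j) ((hm i).inter (hm j)) (hfin2 i j)).1).const_mul _
  have key : ∫ x, (2 / M * ∑ i ∈ I, (F i).indicator (fun _ => (1 : ℝ)) x -
      1 / M ^ 2 * ∑ i ∈ I, ∑ j ∈ I, (F i ∩ F j).indicator (fun _ => (1 : ℝ)) x) ≤
      ∫ x, (⋃ i ∈ I, F i).indicator (fun _ => (1 : ℝ)) x := by
    refine integral_mono (h1.sub h2) (hint _ hmU hfinU).1 fun x => ?_
    obtain ⟨f, hf⟩ : ∃ f : ℝ, f = ∑ i ∈ I, (F i).indicator (fun _ => (1 : ℝ)) x := ⟨_, rfl⟩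
    have hff : ∑ i ∈ I, ∑ j ∈ I, (F i ∩ F j).indicator (fun _ => (1 : ℝ)) x = f * f := by
      rw [hf, sum_mul_sum]
      refine sum_congr rfl fun i _ => sum_congr rfl fun j _ => ?_
      by_cases h1 : x ∈ F i <;> by_cases h2 : x ∈ F j <;> simp [Set.indicator, h1, h2]
    simp only
    rw [hff, ← hf]
    by_cases hx : x ∈ ⋃ i ∈ I, F i
    · rw [Set.indicator_of_mem hx]
      have e : 2 / M * f - 1 / M ^ 2 * (f * f) = 1 - (1 - f / M) ^ 2 := by
        field_simp
        ring
      rw [e]
      nlinarith [sq_nonneg (1 - f / M)]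
    · rw [Set.indicator_of_notMem hx]
      have hf0 : f = 0 := by
        rw [hf]
        apply sum_eq_zero
        intro i hi
        apply Set.indicator_of_notMem
        intro h
        exact hx (Set.mem_biUnion hi h)
      rw [hf0]
      simp
  rw [integral_sub h1 h2, integral_const_mul, integral_const_mul,
    integral_finsetSum I fun i _ => (hint (F i) (hm i) (hfin i)).1,
    integral_finsetSum I fun i _ => integrable_finsetSum I fun j _ =>
      (hint (F i ∩ F j) ((hm i).inter (hm j)) (hfin2 i j)).1, (hint _ hmU hfinU).2] at key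
  have e1 : ∀ i ∈ I, ∫ x, (F i).indicator (fun _ => (1 : ℝ)) x = (volume (F i)).toReal := fun i _ =>
    (hint (F i) (hm i) (hfin i)).2
  have e2 : ∀ i ∈ I, ∫ x, ∑ j ∈ I, (F i ∩ F j).indicator (fun _ => (1 : ℝ)) x =
      ∑ j ∈ I, (volume (F i ∩ F j)).toReal := by
    intro i _
    rw [integral_finsetSum I fun j _ => (hint (F i ∩ F j) ((hm i).inter (hm j)) (hfin2 i j)).1]
    exact sum_congr rfl fun j _ => (hint (F i ∩ F j) ((hm i).inter (hm j)) (hfin2 i j)).2
  rw [sum_congr rfl e1, sum_congr rfl e2] at key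
  exact key

/-- a set which contains a fixed proportion of every subinterval of `[0, 1]` contains almost all of
`(0, 1)` -/
theorem full (G : Set ℝ) (hG : MeasurableSet G) (c : ℝ) (hc : 0 < c)
    (h : ∀ β γ : ℝ, 0 ≤ β → β < γ → γ ≤ 1 → ENNReal.ofReal (c * (γ - β)) ≤ volume (G ∩ Set.Icc β γ)) :
    ∀ᵐ α : ℝ, α ∈ Set.Ioo (0 : ℝ) 1 → α ∈ G := by
  obtain ⟨s, hs⟩ : ∃ s : Set ℝ, s = Set.Ioo (0 : ℝ) 1 \ G := ⟨_, rfl⟩
  have hd := Besicovitch.ae_tendsto_measure_inter_div volume s
  have hno : ∀ x ∈ s, ¬ Tendsto (fun r => volume (s ∩ Metric.closedBall x r) /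
      volume (Metric.closedBall x r)) (𝓝[>] 0) (𝓝 1) := by
    intro x hx ht
    rw [hs] at hx
    obtain ⟨⟨hx0, hx1⟩, -⟩ := hx
    have hev : ∀ᶠ r : ℝ in 𝓝[>] 0, volume (s ∩ Metric.closedBall x r) /
        volume (Metric.closedBall x r) ≤ ENNReal.ofReal (1 - c) := by
      have hr : ∀ᶠ r : ℝ in 𝓝[>] 0, r ∈ Set.Ioo (0 : ℝ) (min x (1 - x)) :=
        Ioo_mem_nhdsGT (lt_min hx0 (by linarith))
      filter_upwards [hr] with r hr
      obtain ⟨hr0, hr1⟩ := hr
      have hrx : r < x := lt_of_lt_of_le hr1 (min_le_left _ _)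
      have hrx1 : r < 1 - x := lt_of_lt_of_le hr1 (min_le_right _ _)
      rw [Real.closedBall_eq_Icc]
      have hv : volume (Set.Icc (x - r) (x + r)) = ENNReal.ofReal (2 * r) := by
        rw [Real.volume_Icc]
        congr 1
        ring
      have h1 := h (x - r) (x + r) (by linarith) (by linarith) (by linarith)
      have h2 : volume (G ∩ Set.Icc (x - r) (x + r)) + volume (s ∩ Set.Icc (x - r) (x + r)) ≤
          volume (Set.Icc (x - r) (x + r)) := by
        rw [← measure_inter_add_sdiff (Set.Icc (x - r) (x + r)) hG, Set.inter_comm G]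
        gcongr
        intro y hy
        rw [hs] at hy
        exact ⟨hy.2, hy.1.2⟩
      have h3 : volume (s ∩ Set.Icc (x - r) (x + r)) ≤ ENNReal.ofReal (2 * r * (1 - c)) := by
        have h4 : ENNReal.ofReal (c * (x + r - (x - r))) + volume (s ∩ Set.Icc (x - r) (x + r)) ≤
            ENNReal.ofReal (2 * r) := by
          rw [← hv]
          exact le_trans (by gcongr) h2
        have h5 : c * (x + r - (x - r)) = 2 * r * c := by ring
        rw [h5] at h4
        have h6 := ENNReal.le_sub_of_add_le_left ENNReal.ofReal_ne_top h4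
        refine h6.trans ?_
        rw [← ENNReal.ofReal_sub _ (by positivity)]
        apply ENNReal.ofReal_le_ofReal
        linarith
      rw [hv]
      refine ENNReal.div_le_of_le_mul ?_
      refine h3.trans ?_
      have h7 : ENNReal.ofReal (1 - c) * ENNReal.ofReal (2 * r) = ENNReal.ofReal ((1 - c) * (2 * r)) ∨
          (1 - c < 0) := by
        by_cases hc1 : 1 - c < 0
        · exact Or.inr hc1
        · exact Or.inl (ENNReal.ofReal_mul (by linarith)).symm
      rcases h7 with h7 | h7
      · rw [h7]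
        apply ENNReal.ofReal_le_ofReal
        linarith
      · have h8 : ENNReal.ofReal (2 * r * (1 - c)) = 0 := by
          apply ENNReal.ofReal_of_nonpos
          nlinarith
        rw [h8]
        exact bot_le
    have h9 := le_of_tendsto ht hev
    have h10 : ENNReal.ofReal (1 - c) < 1 := by
      rw [← ENNReal.ofReal_one]
      exact (ENNReal.ofReal_lt_ofReal_iff one_pos).2 (by linarith)
    exact absurd h9 (not_le.2 h10)
  have hsm : MeasurableSet s := by
    rw [hs]
    exact measurableSet_Ioo.diff hG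
  rw [ae_restrict_iff' hsm] at hd
  filter_upwards [hd] with x hx hx01
  by_contra hxG
  have hxs : x ∈ s := by
    rw [hs]
    exact ⟨hx01, hxG⟩
  exact hno x hxs (hx hxs)

end Pool.Agent.P8H13.OP
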