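import Mathlib
import Pool.Agent.P8H13.OP.Row2
import Pool.Agent.Helper602.MK.J3

/-!
# The sets of the `α` with `⌊α x^θ⌋` in the row: measures and overlaps (helper13)
-/

set_option autoImplicit false

namespace Pool.Agent.P8H13.OP

open Finset Filter Topology MeasureTheory

/-- the `α` with `⌊α s⌋ ∈ A` -/
def F (s : ℝ) (A : Finset ℕ) : Set ℝ := ⋃ a ∈ A, Set.Ico ((a : ℝ) / s) (((a : ℝ) + 1) / s)

theorem mem_F {s : ℝ} (hs : 0 < s) (A : Finset ℕ) (α : ℝ) : α ∈ F s A ↔ 0 ≤ α ∧ ⌊α * s⌋₊ ∈ A := by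
  unfold F
  simp only [Set.mem_iUnion, Set.mem_Ico, exists_prop]
  constructor
  · rintro ⟨a, ha, h1, h2⟩
    rw [div_le_iff₀ hs] at h1
    rw [lt_div_iff₀ hs] at h2
    have h0 : 0 ≤ α := by
      by_contra h
      push Not at h
      have h3 : (0 : ℝ) ≤ a := Nat.cast_nonneg a
      nlinarith
    have h3 : ⌊α * s⌋₊ = a := by
      rw [Nat.floor_eq_iff (by positivity)]
      exact ⟨h1, h2⟩
    rw [h3]
    exact ⟨h0, ha⟩
  · rintro ⟨h0, h1⟩
    refine ⟨_, h1, ?_, ?_⟩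
    · rw [div_le_iff₀ hs]
      exact Nat.floor_le (by positivity)
    · rw [lt_div_iff₀ hs]
      exact Nat.lt_floor_add_one _

theorem meas_F (s : ℝ) (A : Finset ℕ) : MeasurableSet (F s A) :=
  Finset.measurableSet_biUnion A fun _ _ => measurableSet_Ico

theorem vol_Ico {s : ℝ} (hs : 0 < s) (a : ℕ) :
    volume (Set.Ico ((a : ℝ) / s) (((a : ℝ) + 1) / s)) = ENNReal.ofReal (1 / s) := by
  rw [Real.volume_Ico]
  congr 1
  field_simp
  ring

theorem disj_Ico {s : ℝ} (hs : 0 < s) (a b : ℕ) (hab : a ≠ b) :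
    Disjoint (Set.Ico ((a : ℝ) / s) (((a : ℝ) + 1) / s)) (Set.Ico ((b : ℝ) / s) (((b : ℝ) + 1) / s)) := by
  rw [Set.disjoint_left]
  rintro α ⟨h1, h2⟩ ⟨h3, h4⟩
  rw [div_le_iff₀ hs] at h1 h3
  rw [lt_div_iff₀ hs] at h2 h4
  have h5 : (a : ℝ) < b + 1 := by linarith
  have h6 : (b : ℝ) < a + 1 := by linarith
  have h7 : a < b + 1 := by exact_mod_cast h5
  have h8 : b < a + 1 := by exact_mod_cast h6
  omega

theorem vol_F {s : ℝ} (hs : 0 < s) (A : Finset ℕ) : (volume (F s A)).toReal = A.card / s := by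
  unfold F
  rw [measure_biUnion_finset (fun a _ b _ hab => disj_Ico hs a b hab) fun _ _ => measurableSet_Ico]
  simp only [vol_Ico hs]
  rw [sum_const, nsmul_eq_mul, ENNReal.toReal_mul, ENNReal.toReal_natCast,
    ENNReal.toReal_ofReal (by positivity)]
  ring

theorem fin_F {s : ℝ} (hs : 0 < s) (A : Finset ℕ) : volume (F s A) ≠ ⊤ := by
  refine ne_top_of_le_ne_top ?_ (measure_biUnion_finset_le A _)
  refine ENNReal.sum_ne_top.2 fun a _ => ?_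
  rw [vol_Ico hs]
  exact ENNReal.ofReal_ne_top

/-- the overlap of one interval with `F t B` -/
theorem overlap1 {s t : ℝ} (hs : 0 < s) (ht : 0 < t) (hst : s ≤ t) (B : Finset ℕ) (a : ℕ) (K : ℝ)
    (hK : ∀ b₀ : ℕ, ((B.filter (fun b => b₀ ≤ b ∧ b < b₀ + ⌈3 * (t / s)⌉₊)).card : ℝ) ≤ K) :
    volume (Set.Ico ((a : ℝ) / s) (((a : ℝ) + 1) / s) ∩ F t B) ≤ ENNReal.ofReal (K * (1 / t)) := by
  classical
  obtain ⟨b₀, hb₀⟩ : ∃ b₀ : ℕ, b₀ = ⌊(a : ℝ) / s * t⌋₊ := ⟨_, rfl⟩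
  obtain ⟨B', hB'⟩ : ∃ B' : Finset ℕ, B' = B.filter (fun b => b₀ ≤ b ∧ b < b₀ + ⌈3 * (t / s)⌉₊) := ⟨_, rfl⟩
  have hsub : Set.Ico ((a : ℝ) / s) (((a : ℝ) + 1) / s) ∩ F t B ⊆ F t B' := by
    rintro α ⟨⟨h1, h2⟩, h3⟩
    rw [mem_F ht] at h3 ⊢
    obtain ⟨h0, h4⟩ := h3
    refine ⟨h0, ?_⟩
    rw [hB', mem_filter]
    refine ⟨h4, ?_, ?_⟩
    · rw [hb₀]
      exact Nat.floor_le_floor (mul_le_mul_of_nonneg_right h1 ht.le)
    · have h5 : (⌊α * t⌋₊ : ℝ) ≤ α * t := Nat.floor_le (by positivity)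
      have h6 : α * t < ((a : ℝ) + 1) / s * t := mul_lt_mul_of_pos_right h2 ht
      have h7 : ((a : ℝ) + 1) / s * t = (a : ℝ) / s * t + t / s := by
        field_simp
      have h8 : (a : ℝ) / s * t < b₀ + 1 := by
        rw [hb₀]
        exact Nat.lt_floor_add_one _
      have h9 : 1 ≤ t / s := by rwa [one_le_div hs]
      have h10 : 3 * (t / s) ≤ (⌈3 * (t / s)⌉₊ : ℝ) := Nat.le_ceil _
      have h11 : (⌊α * t⌋₊ : ℝ) < b₀ + ⌈3 * (t / s)⌉₊ := by linarith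
      exact_mod_cast h11
  refine (measure_mono hsub).trans ?_
  have h12 := vol_F ht B'
  rw [← ENNReal.ofReal_toReal (fin_F ht B'), h12]
  apply ENNReal.ofReal_le_ofReal
  rw [mul_one_div]
  apply div_le_div_of_nonneg_right _ ht.le
  rw [hB']
  exact hK b₀

/-- the overlap of `F s A` and `F t B` -/
theorem overlap {s t : ℝ} (hs : 0 < s) (ht : 0 < t) (hst : s ≤ t) (A B : Finset ℕ) (K : ℝ) (hK0 : 0 ≤ K)
    (hK : ∀ b₀ : ℕ, ((B.filter (fun b => b₀ ≤ b ∧ b < b₀ + ⌈3 * (t / s)⌉₊)).card : ℝ) ≤ K) :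
    (volume (F s A ∩ F t B)).toReal ≤ A.card * (K * (1 / t)) := by
  have h1 : F s A ∩ F t B = ⋃ a ∈ A, (Set.Ico ((a : ℝ) / s) (((a : ℝ) + 1) / s) ∩ F t B) := by
    conv_lhs => rw [F]
    rw [Set.iUnion₂_inter]
  have h2 : volume (F s A ∩ F t B) ≤ ENNReal.ofReal (A.card * (K * (1 / t))) := by
    rw [h1]
    refine (measure_biUnion_finset_le A _).trans ?_
    calc ∑ a ∈ A, volume (Set.Ico ((a : ℝ) / s) (((a : ℝ) + 1) / s) ∩ F t B)
        ≤ ∑ a ∈ A, ENNReal.ofReal (K * (1 / t)) := sum_le_sum fun a _ => overlap1 hs ht hst B a K hK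
      _ = ENNReal.ofReal (A.card * (K * (1 / t))) := by
          rw [sum_const, nsmul_eq_mul, ENNReal.ofReal_mul (Nat.cast_nonneg _), ENNReal.ofReal_natCast]
  exact ENNReal.toReal_le_of_le_ofReal (by positivity) h2

/-- the Brun-Titchmarsh inequality for the rows -/
theorem bt : ∃ C : ℝ, 1 ≤ C ∧ ∀ Q b₀ R : ℕ, 2 ≤ R → ∀ B : Finset ℕ, (∀ b ∈ B, (Q + b).Prime) →
    ((B.filter (fun b => b₀ ≤ b ∧ b < b₀ + R)).card : ℝ) ≤ C * R / Real.log R := by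
  classical
  obtain ⟨C, hC1, hC⟩ := Pool.Agent.Helper602.MK.N_J3.J3
  refine ⟨C, hC1, fun Q b₀ R hR B hB => ?_⟩
  have h1 := hC (Q + b₀) 1 R le_rfl hR
  rw [Nat.totient_one, Nat.cast_one, div_one, mul_one] at h1
  refine le_trans ?_ h1
  have h2 : (B.filter (fun b => b₀ ≤ b ∧ b < b₀ + R)).card ≤
      (((range R).filter (fun t => (Q + b₀ + t * 1).Prime)).image (fun t => b₀ + t)).card := by
    apply card_le_card
    intro b hb
    rw [mem_filter] at hb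
    rw [mem_image]
    refine ⟨b - b₀, ?_, by omega⟩
    rw [mem_filter, mem_range]
    refine ⟨by omega, ?_⟩
    have e : Q + b₀ + (b - b₀) * 1 = Q + b := by omega
    rw [e]
    exact hB b hb.1
  exact_mod_cast h2.trans card_image_le

end Pool.Agent.P8H13.OP
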