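import Mathlib
import Pool.Agent.P8H13.OP.Meas
import Pool.Agent.P8H13.OP.Sets

/-!
# For almost all `α`, `x² + b x + ⌊α x^θ⌋` is prime for infinitely many `x` (helper13)
-/

set_option autoImplicit false

namespace Pool.Agent.P8H13.OP

open Finset Filter Topology MeasureTheory

theorem F_sub (b : ℤ) (θ β γ : ℝ) (x : ℕ) (hx : 1 ≤ x) (α : ℝ)
    (h : α ∈ F ((x : ℝ) ^ θ) (Row b θ β γ x)) :
    α ∈ Set.Icc β γ ∧ (q b x + ⌊α * (x : ℝ) ^ θ⌋₊).Prime := by
  have hx0 : (0 : ℝ) < x := by exact_mod_cast hx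
  have hs : 0 < (x : ℝ) ^ θ := Real.rpow_pos_of_pos hx0 _
  rw [mem_F hs] at h
  obtain ⟨h0, h1⟩ := h
  unfold Row at h1
  rw [mem_filter] at h1
  obtain ⟨-, h2, h3, h4⟩ := h1
  refine ⟨⟨?_, ?_⟩, h4⟩
  · have h5 : (⌊α * (x : ℝ) ^ θ⌋₊ : ℝ) ≤ α * (x : ℝ) ^ θ := Nat.floor_le (by positivity)
    exact le_of_mul_le_mul_right (h2.trans h5) hs
  · have h5 : α * (x : ℝ) ^ θ < ⌊α * (x : ℝ) ^ θ⌋₊ + 1 := Nat.lt_floor_add_one _
    exact le_of_mul_le_mul_right (h5.le.trans h3) hs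

/-- a sum over pairs -/
theorem pairs (n : ℕ) (μ : ℕ → ℝ) (ν : ℕ → ℕ → ℝ) (D : ℝ) (hμ : ∀ i, 0 ≤ μ i) (hD : 0 ≤ D)
    (h1 : ∀ i, ν i i = μ i) (h2 : ∀ i k, ν i k = ν k i)
    (h3 : ∀ i k : ℕ, i < k → ν i k ≤ D * μ i / ((k : ℝ) - i)) :
    ∑ i ∈ range n, ∑ k ∈ range n, ν i k ≤
      (1 + 2 * D * ∑ d ∈ range n, 1 / ((d : ℝ) + 1)) * ∑ i ∈ range n, μ i := by
  classical
  obtain ⟨g, hg⟩ : ∃ g : ℕ → ℕ → ℝ, g = fun i k => if i < k then D * μ i / ((k : ℝ) - i) else 0 := ⟨_, rfl⟩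
  obtain ⟨H, hH⟩ : ∃ H : ℝ, H = ∑ d ∈ range n, 1 / ((d : ℝ) + 1) := ⟨_, rfl⟩
  rw [← hH]
  have h4 : ∀ i k, ν i k ≤ (if i = k then μ i else 0) + g i k + g k i := by
    intro i k
    rw [hg]
    simp only
    rcases lt_trichotomy i k with h | h | h
    · rw [if_neg h.ne, if_pos h, if_neg (not_lt.2 h.le)]
      have := h3 i k h
      linarith
    · subst h
      rw [if_pos rfl, if_neg (lt_irrefl _), h1]
      linarith
    · rw [if_neg h.ne', if_neg (not_lt.2 h.le), if_pos h, h2]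
      have := h3 k i h
      linarith
  have h5 : ∀ i ∈ range n, ∑ k ∈ range n, g i k ≤ D * H * μ i := by
    intro i hi
    rw [mem_range] at hi
    have e : n = (i + 1) + (n - (i + 1)) := by omega
    have h6 : ∑ k ∈ range n, g i k = ∑ d ∈ range (n - (i + 1)), D * μ i * (1 / ((d : ℝ) + 1)) := by
      rw [e, sum_range_add]
      have h7 : ∑ k ∈ range (i + 1), g i k = 0 := by
        apply sum_eq_zero
        intro k hk
        rw [mem_range] at hk
        rw [hg]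
        simp only
        rw [if_neg (by omega)]
      rw [h7, zero_add, Nat.add_sub_cancel_left]
      apply sum_congr rfl
      intro d _
      rw [hg]
      simp only
      rw [if_pos (by omega)]
      push_cast
      rw [show (i : ℝ) + 1 + d - i = d + 1 by ring]
      ring
    rw [h6, ← mul_sum]
    have h8 : ∑ d ∈ range (n - (i + 1)), 1 / ((d : ℝ) + 1) ≤ H := by
      rw [hH]
      apply sum_le_sum_of_subset_of_nonneg
      · intro d hd
        rw [mem_range] at hd ⊢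
        omega
      · intro d _ _
        positivity
    calc D * μ i * ∑ d ∈ range (n - (i + 1)), 1 / ((d : ℝ) + 1) ≤ D * μ i * H :=
          mul_le_mul_of_nonneg_left h8 (mul_nonneg hD (hμ i))
      _ = D * H * μ i := by ring
  calc ∑ i ∈ range n, ∑ k ∈ range n, ν i k
      ≤ ∑ i ∈ range n, ∑ k ∈ range n, ((if i = k then μ i else 0) + g i k + g k i) :=
        sum_le_sum fun i _ => sum_le_sum fun k _ => h4 i k
    _ = ∑ i ∈ range n, μ i + ∑ i ∈ range n, ∑ k ∈ range n, g i k + ∑ i ∈ range n, ∑ k ∈ range n, g k i := by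
        simp only [sum_add_distrib]
        congr 2
        apply sum_congr rfl
        intro i hi
        rw [sum_ite_eq, if_pos hi]
    _ = ∑ i ∈ range n, μ i + 2 * ∑ i ∈ range n, ∑ k ∈ range n, g i k := by
        rw [sum_comm (f := fun i k => g k i)]
        ring
    _ ≤ ∑ i ∈ range n, μ i + 2 * ∑ i ∈ range n, D * H * μ i := by
        have := sum_le_sum h5
        linarith
    _ = _ := by
        rw [← mul_sum]
        ring

/-- the main estimate for the union -/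
theorem union_ge (c C Δ : ℝ) (hc : 0 < c) (hC : 1 ≤ C) (hΔ : 0 < Δ) (i₁ : ℕ) (F : ℕ → Set ℝ)
    (hm : ∀ i, MeasurableSet (F i)) (hfin : ∀ i, volume (F i) ≠ ⊤)
    (hlow : ∀ i : ℕ, c * Δ / (3 * ((i : ℝ) + i₁ + 1)) ≤ (volume (F i)).toReal)
    (hup : ∀ i : ℕ, (volume (F i)).toReal ≤ 6 * C * Δ / ((i : ℝ) + i₁ + 1))
    (hov : ∀ i k : ℕ, i < k → (volume (F i ∩ F k)).toReal ≤ 12 * C * (volume (F i)).toReal / ((k : ℝ) - i)) :
    ∃ n : ℕ, c ^ 2 / (2646 * C ^ 2) * Δ ≤ (volume (⋃ i ∈ range n, F i)).toReal := by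
  obtain ⟨H, hH⟩ : ∃ H : ℕ → ℝ, H = fun n => ∑ d ∈ range n, 1 / ((d : ℝ) + 1) := ⟨_, rfl⟩
  have hHt : Tendsto H atTop atTop := by
    rw [hH]
    exact Real.tendsto_sum_range_one_div_nat_succ_atTop
  obtain ⟨n, hn⟩ := (hHt.eventually_ge_atTop (2 * H i₁ + 1)).exists
  refine ⟨n, ?_⟩
  obtain ⟨h, hh⟩ : ∃ h : ℝ, h = ∑ i ∈ range n, 1 / ((i : ℝ) + i₁ + 1) := ⟨_, rfl⟩
  have hHi : 0 ≤ H i₁ := by
    rw [hH]
    exact sum_nonneg fun d _ => by positivity
  have hHh : H n ≤ H i₁ + h := by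
    have h1 : H (i₁ + n) = H i₁ + h := by
      rw [hH, hh]
      simp only
      rw [sum_range_add]
      congr 1
      apply sum_congr rfl
      intro d _
      push_cast
      ring_nf
    rw [← h1, hH]
    simp only
    apply sum_le_sum_of_subset_of_nonneg
    · intro d hd
      rw [mem_range] at hd ⊢
      omega
    · intro d _ _
      positivity
  have hh1 : 1 ≤ h := by linarith
  have hH2 : H n ≤ 2 * h := by linarith
  obtain ⟨S1, hS1⟩ : ∃ S1 : ℝ, S1 = ∑ i ∈ range n, (volume (F i)).toReal := ⟨_, rfl⟩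
  obtain ⟨S2, hS2⟩ : ∃ S2 : ℝ, S2 = ∑ i ∈ range n, ∑ k ∈ range n, (volume (F i ∩ F k)).toReal := ⟨_, rfl⟩
  have hS1low : c * Δ / 3 * h ≤ S1 := by
    rw [hS1, hh, mul_sum]
    apply sum_le_sum
    intro i _
    refine le_trans (le_of_eq ?_) (hlow i)
    field_simp
  have hS1up : S1 ≤ 6 * C * Δ * h := by
    rw [hS1, hh, mul_sum]
    apply sum_le_sum
    intro i _
    refine (hup i).trans (le_of_eq ?_)
    field_simp
  have hS2up : S2 ≤ (1 + 2 * (12 * C) * H n) * S1 := by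
    rw [hS2, hS1, hH]
    exact pairs n (fun i => (volume (F i)).toReal) (fun i k => (volume (F i ∩ F k)).toReal) (12 * C)
      (fun i => ENNReal.toReal_nonneg) (by positivity) (fun i => by simp only [Set.inter_self])
      (fun i k => by simp only [Set.inter_comm]) hov
  have hS2up' : S2 ≤ 294 * C ^ 2 * Δ * h ^ 2 := by
    have hS10 : 0 ≤ S1 := by
      rw [hS1]
      exact sum_nonneg fun i _ => ENNReal.toReal_nonneg
    have h1 : 1 + 2 * (12 * C) * H n ≤ 49 * C * h := by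
      have h2 : 2 * (12 * C) * H n ≤ 2 * (12 * C) * (2 * h) := mul_le_mul_of_nonneg_left hH2 (by positivity)
      have h3 : 1 * 1 ≤ C * h := mul_le_mul hC hh1 zero_le_one (by linarith)
      linarith
    calc S2 ≤ (1 + 2 * (12 * C) * H n) * S1 := hS2up
      _ ≤ (49 * C * h) * S1 := mul_le_mul_of_nonneg_right h1 hS10
      _ ≤ (49 * C * h) * (6 * C * Δ * h) := mul_le_mul_of_nonneg_left hS1up (by positivity)
      _ = _ := by ring
  obtain ⟨M, hM⟩ : ∃ M : ℝ, M = 882 * C ^ 2 / c * h := ⟨_, rfl⟩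
  have hM0 : 0 < M := by
    rw [hM]
    have : 0 < C := by linarith
    positivity
  have hch := chung (range n) F hm hfin M hM0
  rw [← hS1, ← hS2] at hch
  refine le_trans ?_ hch
  have e1 : 2 / M * (c * Δ / 3 * h) ≤ 2 / M * S1 := mul_le_mul_of_nonneg_left hS1low (by positivity)
  have e2 : 1 / M ^ 2 * S2 ≤ 1 / M ^ 2 * (294 * C ^ 2 * Δ * h ^ 2) :=
    mul_le_mul_of_nonneg_left hS2up' (by positivity)
  have e3 : 2 / M * (c * Δ / 3 * h) - 1 / M ^ 2 * (294 * C ^ 2 * Δ * h ^ 2) =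
      c ^ 2 / (2646 * C ^ 2) * Δ := by
    rw [hM]
    have hC0 : C ≠ 0 := by
      intro h
      linarith
    have hh0 : h ≠ 0 := by
      intro h'
      linarith
    have hc0 : c ≠ 0 := hc.ne'
    field_simp
    ring
  linarith

end Pool.Agent.P8H13.OP
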