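import Mathlib
import Pool.Agent.P8H13.OP.Off
import Pool.Agent.P8H13.OP.Sets

/-!
# Oppermann's intervals with prescribed offsets: counts and progressions (helper13)
-/

set_option autoImplicit false

namespace Pool.Agent.P8H13.OP

open Finset Filter Topology
open Pool.Agent.N792 (eps gcdProd fv li_asym)
open Pool.Agent.N511.LL.I0aux (gcd_val)

/-- the offsets `a ∈ D` with `Q + a` prime -/
def Off (Q : ℕ) (D : Finset ℕ) : Finset ℕ := D.filter (fun a => (Q + a).Prime)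

/-- the first terms of progressions in `U` -/
def First (m : ℕ) (R : ℝ) (U : Finset ℕ) : Set ℕ :=
  {a | a ∈ U ∧ ∃ d : ℕ, 1 ≤ d ∧ (d : ℝ) ≤ R ∧ ∀ j < m, a + j * d ∈ U}

/-- the elements of `U` which are no first terms -/
noncomputable def rest (m : ℕ) (R : ℝ) (U : Finset ℕ) : Finset ℕ := by
  classical exact U.filter (fun a => a ∉ First m R U)

/-- progressions in one row -/
theorem szem_row (m : ℕ) (η c : ℝ) (hη : 0 < η) (hc : 0 < c) :
    ∃ B N₀ : ℕ, ∀ N : ℕ, N₀ ≤ N → ∀ C : ℕ, (N : ℝ) ^ (7 / 10 : ℝ) ≤ C → C ≤ N → ∀ Q : ℕ, N ≤ Q →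
      ∀ D ⊆ Icc 1 C, c * (C / Real.log N) ≤ ((Off Q D).card : ℝ) →
        ∀ V ⊆ Off Q D, ((rest m (Real.log N ^ B) V).card : ℝ) ≤ η * (Off Q D).card := by
  classical
  obtain ⟨C₁, hC₁, hm⟩ := Pool.Agent.Y840.PT.mert
  obtain ⟨δ, hδ⟩ : ∃ δ : ℝ, δ = η * c / (15 * C₁) := ⟨_, rfl⟩
  have hδ0 : 0 < δ := by rw [hδ]; positivity
  obtain ⟨B, X₀, hsz⟩ := Pool.Agent.Y843.HS.fin (m + 1) 1 (1 / 5) δ (by norm_num) hδ0
  have hlog : Tendsto (fun N : ℕ => Real.log (N : ℝ)) atTop atTop :=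
    Real.tendsto_log_atTop.comp tendsto_natCast_atTop_atTop
  have hp1 : Tendsto (fun N : ℕ => (N : ℝ) ^ (7 / 100 : ℝ)) atTop atTop :=
    (tendsto_rpow_atTop (by norm_num)).comp tendsto_natCast_atTop_atTop
  have hp2 : Tendsto (fun N : ℕ => (N : ℝ) ^ (7 / 10 : ℝ)) atTop atTop :=
    (tendsto_rpow_atTop (by norm_num)).comp tendsto_natCast_atTop_atTop
  obtain ⟨N₁, hN₁⟩ := eventually_atTop.1 ((hlog.eventually_ge_atTop 2).and
    ((hp1.eventually_ge_atTop 3).and (hp2.eventually_ge_atTop (X₀ + 3))))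
  refine ⟨B, N₁ + 3, fun N hN C hC1 hC2 Q hQ D hD hcard V hV => ?_⟩
  obtain ⟨b1, b2, b3⟩ := hN₁ N (by omega)
  have hN0 : (0 : ℝ) < N := by exact_mod_cast (by omega : 0 < N)
  have hC3 : (X₀ : ℝ) + 3 ≤ C := b3.trans hC1
  have hX₀ : X₀ ≤ C := by
    have : (X₀ : ℝ) ≤ C := by linarith
    exact_mod_cast this
  have hCpos : (0 : ℝ) < C := by
    have : (0 : ℝ) ≤ X₀ := Nat.cast_nonneg X₀
    linarith
  have hC1' : (1 : ℝ) ≤ C := by
    have : (0 : ℝ) ≤ X₀ := Nat.cast_nonneg X₀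
    linarith
  have hCN : (C : ℝ) ≤ N := by exact_mod_cast hC2
  obtain ⟨L, hL⟩ : ∃ L : ℝ, L = Real.log N := ⟨_, rfl⟩
  rw [← hL] at b1 hcard ⊢
  have hL0 : 0 < L := by linarith
  obtain ⟨z, hz⟩ : ∃ z : ℝ, z = (C : ℝ) ^ (1 / 5 : ℝ) := ⟨_, rfl⟩
  have hz2 : z = (C : ℝ) ^ (1 / 10 : ℝ) * (C : ℝ) ^ (1 / 10 : ℝ) := by
    rw [hz, ← Real.rpow_add hCpos]
    norm_num
  have hc10 : (N : ℝ) ^ (7 / 100 : ℝ) ≤ (C : ℝ) ^ (1 / 10 : ℝ) := by
    calc (N : ℝ) ^ (7 / 100 : ℝ) = ((N : ℝ) ^ (7 / 10 : ℝ)) ^ (1 / 10 : ℝ) := by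
          rw [← Real.rpow_mul hN0.le]
          norm_num
      _ ≤ (C : ℝ) ^ (1 / 10 : ℝ) := Real.rpow_le_rpow (Real.rpow_nonneg hN0.le _) hC1 (by norm_num)
  have hc10' : 3 ≤ (C : ℝ) ^ (1 / 10 : ℝ) := b2.trans hc10
  have hz9 : 9 ≤ z := by rw [hz2]; nlinarith
  have hfl : (N : ℝ) ^ (7 / 100 : ℝ) ≤ (⌊z⌋₊ : ℝ) := by
    have h1 := Nat.lt_floor_add_one z
    have h2 : 3 * (C : ℝ) ^ (1 / 10 : ℝ) ≤ z := by rw [hz2]; nlinarith
    linarith
  have hfl2 : 2 ≤ ⌊z⌋₊ := Nat.le_floor (by push_cast; linarith)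
  have hlogz : 7 / 100 * L ≤ Real.log (⌊z⌋₊ : ℝ) := by
    have h1 := Real.log_le_log (Real.rpow_pos_of_pos hN0 _) hfl
    rw [Real.log_rpow hN0, ← hL] at h1
    exact h1
  obtain ⟨Z, hZ⟩ : ∃ Z : ℕ → Finset ℕ, Z = fun _ => {0} := ⟨_, rfl⟩
  have hVV : Pool.Agent.Y843.HS.VV Z 0 ⌊z⌋₊ ≤ 15 * C₁ / L := by
    have h1 := hm ⌊z⌋₊ hfl2
    have e : Pool.Agent.Y843.HS.VV Z 0 ⌊z⌋₊ = ∏ p ∈ Pool.Agent.Y840.PT.P0 ⌊z⌋₊, (1 - 1 / (p : ℝ)) := by
      unfold Pool.Agent.Y843.HS.VV Pool.Agent.Y843.HS.Pr Pool.Agent.Y840.PT.P0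
      apply prod_congr rfl
      intro p _
      rw [hZ]
      simp
    rw [e]
    refine h1.trans ?_
    rw [div_le_div_iff₀ (by nlinarith) hL0]
    nlinarith
  by_contra hcon
  push Not at hcon
  obtain ⟨R, hR⟩ : ∃ R : Finset ℕ, R = rest m (L ^ B) V := ⟨_, rfl⟩
  rw [← hR] at hcon
  have hRV : R ⊆ V := by
    rw [hR]
    unfold rest
    exact filter_subset _ _
  have hRO : ∀ a ∈ R, 1 ≤ a ∧ a ≤ C ∧ (Q + a).Prime := by
    intro a ha
    have h1 := hV (hRV ha)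
    unfold Off at h1
    rw [mem_filter] at h1
    have h2 := mem_Icc.1 (hD h1.1)
    exact ⟨h2.1, h2.2, h1.2⟩
  obtain ⟨S, hS⟩ : ∃ S : Finset ℕ, S = R.image (fun a => Q + a) := ⟨_, rfl⟩
  have hScard : S.card = R.card := by
    rw [hS, card_image_of_injective _ (fun a b h => by simpa using h)]
  have hdens : δ * C * Pool.Agent.Y843.HS.VV Z 0 ⌊(C : ℝ) ^ (1 / 5 : ℝ)⌋₊ ≤ S.card := by
    rw [← hz, hScard]
    refine le_trans ?_ hcon.le
    calc δ * C * Pool.Agent.Y843.HS.VV Z 0 ⌊z⌋₊ ≤ δ * C * (15 * C₁ / L) :=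
          mul_le_mul_of_nonneg_left hVV (by positivity)
      _ = η * (c * (C / L)) := by
          rw [hδ]
          field_simp
      _ ≤ η * (Off Q D).card := mul_le_mul_of_nonneg_left hcard hη.le
  obtain ⟨a', d, hd1, hd2, hAP⟩ := hsz C Q hX₀ Z (by
    intro p hp _
    rw [hZ]
    refine ⟨by simp, by simpa using hp.one_lt, ?_⟩
    intro c hc
    simp only [Finset.mem_singleton] at hc
    rw [hc]
    exact hp.pos) S (by
    intro n hn
    rw [hS, mem_image] at hn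
    obtain ⟨a, ha, rfl⟩ := hn
    obtain ⟨h1, h2, -⟩ := hRO a ha
    rw [mem_Ioc]
    omega) (by
    intro n hn p hp hpC hmem
    rw [hS, mem_image] at hn
    obtain ⟨a, ha, rfl⟩ := hn
    obtain ⟨h1, h2, h3⟩ := hRO a ha
    rw [hZ] at hmem
    simp only [Finset.mem_singleton] at hmem
    have h4 : p ∣ Q + a := Nat.dvd_of_mod_eq_zero hmem
    have h5 := (Nat.prime_dvd_prime_iff_eq hp h3).1 h4
    have h6 : (C : ℝ) ^ (1 / 5 : ℝ) ≤ C := by
      calc (C : ℝ) ^ (1 / 5 : ℝ) ≤ (C : ℝ) ^ (1 : ℝ) :=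
            Real.rpow_le_rpow_of_exponent_le hC1' (by norm_num)
        _ = C := Real.rpow_one _
    have h7 : p ≤ C := by
      have : (p : ℝ) ≤ C := hpC.trans h6
      exact_mod_cast this
    omega) hdens
  have hmemS : ∀ n, n ∈ S → ∃ a ∈ R, n = Q + a := by
    intro n hn
    rw [hS, mem_image] at hn
    obtain ⟨a, ha, h⟩ := hn
    exact ⟨a, ha, h.symm⟩
  have h0 := hAP 0 (by omega)
  rw [zero_mul, add_zero] at h0
  obtain ⟨a, ha, rfl⟩ := hmemS a' h0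
  have hall : ∀ j < m + 1, a + j * d ∈ R := by
    intro j hj
    obtain ⟨a₂, ha₂, h⟩ := hmemS _ (hAP j hj)
    have : a + j * d = a₂ := by omega
    rw [this]
    exact ha₂
  have hdL : (d : ℝ) ≤ L ^ B := by
    refine hd2.trans ?_
    apply pow_le_pow_left₀ (Real.log_nonneg hC1')
    rw [hL]
    exact Real.log_le_log hCpos hCN
  rw [hR] at ha
  unfold rest at ha
  rw [mem_filter] at ha
  exact ha.2 ⟨ha.1, d, hd1, hdL, fun j hj => hRV (hall j (by omega))⟩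

/-- real inequality: the number of `x` for one good constant term -/
theorem real2 {e S Sg X D η s P : ℝ} (he : 1 ≤ e) (hs : 0 < s) (hS : s ≤ S) (hX : 0 < X)
    (_hη : 0 < η) (hη1 : η ≤ 1 / 200) (hD : X / 4 ≤ D) (hSg : |Sg - D| ≤ η * X)
    (hP : 3 / 4 * (e * S * 1 * Sg) - η * (e * S * 1 * X) ≤ P) : s * (X / 8) ≤ P := by
  obtain ⟨h1, -⟩ := abs_le.1 hSg
  have h0 : η * X ≤ 1 / 200 * X := mul_le_mul_of_nonneg_right hη1 hX.le
  have hS0 : 0 < S := by linarith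
  have h3 : e * S * (X / 8) ≤ P := by
    refine le_trans ?_ hP
    have e1 : 3 / 4 * (e * S * 1 * Sg) - η * (e * S * 1 * X) = e * S * (3 / 4 * Sg - η * X) := by ring
    rw [e1]
    apply mul_le_mul_of_nonneg_left _ (by positivity)
    linarith
  refine le_trans ?_ h3
  apply mul_le_mul_of_nonneg_right _ (by positivity)
  nlinarith

/-- the number of the rich rows -/
theorem off_count (b : ℤ) (hb : b = 0 ∨ b = -1) (ε₀ δ : ℝ) (hε₀ : 0 < ε₀) (hδ : 0 < δ) :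
    ∃ c : ℝ, 0 < c ∧ ∃ N₀ : ℕ, ∀ N : ℕ, N₀ ≤ N → ∀ C : ℕ, (N : ℝ) ^ (7 / 10 + ε₀) ≤ C → C ≤ N →
      ∀ D ⊆ Icc 1 C, (b = -1 → ∀ a ∈ D, Odd a) → δ * C ≤ D.card →
        c * N ≤ (((Ioc N (2 * N)).filter (fun x : ℕ =>
          c * (C / Real.log N) ≤ ((Off (q b x) D).card : ℝ))).card : ℝ) := by
  classical
  obtain ⟨ε, hε⟩ : ∃ ε : ℝ, ε = min ε₀ (3 / 10) := ⟨_, rfl⟩
  have hε0 : 0 < ε := by rw [hε]; positivity
  have hε1 : ε ≤ 3 / 10 := by rw [hε]; exact min_le_right _ _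
  have hεε : ε ≤ ε₀ := by rw [hε]; exact min_le_left _ _
  obtain ⟨δ', hδ'⟩ : ∃ δ' : ℝ, δ' = min δ 1 := ⟨_, rfl⟩
  have hδ0 : 0 < δ' := by rw [hδ']; positivity
  have hδ1 : δ' ≤ 1 := by rw [hδ']; exact min_le_right _ _
  have hδδ : δ' ≤ δ := by rw [hδ']; exact min_le_left _ _
  obtain ⟨s, hs, hgood⟩ := good_terms2 b hb (δ' / 16) (by positivity) (by linarith)
  obtain ⟨K, hK1, hK⟩ := bt
  have hK0 : 0 < K := by linarith
  obtain ⟨η, hη⟩ : ∃ η : ℝ, η = δ' / 200 := ⟨_, rfl⟩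
  have hη0 : 0 < η := by rw [hη]; positivity
  obtain ⟨c, hc⟩ : ∃ c : ℝ, c = δ' * s / (64 * K) := ⟨_, rfl⟩
  have hc0 : 0 < c := by rw [hc]; positivity
  obtain ⟨M₀, hM₀⟩ := hgood (ε / 2) η (by positivity) hη0
  obtain ⟨x3, hx3⟩ := li_asym 1 one_pos b η hη0
  have hlog : Tendsto (fun N : ℕ => Real.log (N : ℝ)) atTop atTop :=
    Real.tendsto_log_atTop.comp tendsto_natCast_atTop_atTop
  have hp1 : Tendsto (fun N : ℕ => (N : ℝ) ^ (ε / 2)) atTop atTop :=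
    (tendsto_rpow_atTop (by positivity)).comp tendsto_natCast_atTop_atTop
  obtain ⟨N₁, hN₁⟩ := eventually_atTop.1 ((hlog.eventually_ge_atTop 2).and
    (hp1.eventually_ge_atTop (8 + 8 / δ')))
  refine ⟨c, hc0, N₁ + M₀ + x3 + 4, fun N hN C hC1 hC2 D hD ho hcard => ?_⟩
  obtain ⟨b1, b2⟩ := hN₁ N (by omega)
  have hN0 : (0 : ℝ) < N := by exact_mod_cast (by omega : 0 < N)
  have hN1 : (1 : ℝ) ≤ N := by exact_mod_cast (by omega : 1 ≤ N)
  have hN4 : (4 : ℝ) ≤ N := by exact_mod_cast (by omega : 4 ≤ N)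
  have h8 : 0 < 8 / δ' := by positivity
  have hN7 : 1 ≤ (N : ℝ) ^ (7 / 10 + ε / 2) := Real.one_le_rpow hN1 (by linarith)
  have hNsplit : (8 + 8 / δ') * (N : ℝ) ^ (7 / 10 + ε / 2) ≤ C := by
    have e1 : (N : ℝ) ^ (7 / 10 + ε) ≤ (N : ℝ) ^ (7 / 10 + ε₀) :=
      Real.rpow_le_rpow_of_exponent_le hN1 (by linarith)
    refine le_trans ?_ (e1.trans hC1)
    have e : (N : ℝ) ^ (7 / 10 + ε) = (N : ℝ) ^ (ε / 2) * (N : ℝ) ^ (7 / 10 + ε / 2) := by
      rw [← Real.rpow_add hN0]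
      congr 1
      ring
    rw [e]
    exact mul_le_mul_of_nonneg_right b2 (by linarith)
  have hC8 : 8 + 8 / δ' ≤ C := by nlinarith
  have hC0 : (0 : ℝ) < C := by linarith
  have hC8' : (8 : ℝ) ≤ C := by linarith
  have hC8n : 8 ≤ C := by exact_mod_cast hC8'
  have hδC : 8 ≤ δ' * C := by
    have h1 : 8 / δ' ≤ C := by linarith
    rw [div_le_iff₀ hδ0] at h1
    linarith
  have hCN : (C : ℝ) ≤ N := by exact_mod_cast hC2
  obtain ⟨L, hL⟩ : ∃ L : ℝ, L = Real.log N := ⟨_, rfl⟩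
  rw [← hL] at b1 ⊢
  have hL0 : 0 < L := by linarith
  have h2Nr : ((2 * N : ℕ) : ℝ) = 2 * N := by push_cast; ring
  have h2N : (((2 * N : ℕ) : ℝ)) ^ (7 / 10 + ε / 2) ≤ 2 * (N : ℝ) ^ (7 / 10 + ε / 2) := by
    rw [h2Nr, Real.mul_rpow (by norm_num) hN0.le]
    apply mul_le_mul_of_nonneg_right _ (by linarith)
    calc (2 : ℝ) ^ (7 / 10 + ε / 2) ≤ (2 : ℝ) ^ (1 : ℝ) :=
          Real.rpow_le_rpow_of_exponent_le (by norm_num) (by linarith)
      _ = 2 := Real.rpow_one _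
  have h2NC : 4 * (((2 * N : ℕ) : ℝ)) ^ (7 / 10 + ε / 2) ≤ C := by
    have h1 : 8 * (N : ℝ) ^ (7 / 10 + ε / 2) ≤ (8 + 8 / δ') * (N : ℝ) ^ (7 / 10 + ε / 2) :=
      mul_le_mul_of_nonneg_right (by linarith) (by linarith)
    linarith
  have h2N1 : (1 : ℝ) ≤ ((2 * N : ℕ) : ℝ) := by rw [h2Nr]; linarith
  have h2N7 : 1 ≤ (((2 * N : ℕ) : ℝ)) ^ (7 / 10 + ε / 2) := Real.one_le_rpow h2N1 (by linarith)
  obtain ⟨H, hH⟩ : ∃ H : ℕ, H = (C - 1) / 2 := ⟨_, rfl⟩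
  have hH1 : 1 + 2 * H ≤ C := by omega
  have hH2 : C ≤ 2 * H + 2 := by omega
  have hHr : (C : ℝ) / 2 - 1 ≤ H := by
    have : (C : ℝ) ≤ 2 * H + 2 := by exact_mod_cast hH2
    linarith
  have hHr2 : 2 * (H : ℝ) ≤ C := by
    have : (1 : ℝ) + 2 * H ≤ C := by exact_mod_cast hH1
    linarith
  have hMH : (((2 * N : ℕ) : ℝ)) ^ (7 / 10 : ℝ) ≤ H := by
    have h1 : (((2 * N : ℕ) : ℝ)) ^ (7 / 10 : ℝ) ≤ (((2 * N : ℕ) : ℝ)) ^ (7 / 10 + ε / 2) :=
      Real.rpow_le_rpow_of_exponent_le h2N1 (by linarith)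
    linarith
  obtain ⟨Bad, hBad, hG⟩ := hM₀ (2 * N) (by omega) C (by linarith) (by omega) N 1 H (by omega) le_rfl
    hH1 hMH
  -- the good offsets
  obtain ⟨G, hGd⟩ : ∃ G : Finset ℕ, G = (D.filter (fun a => a < 1 + 2 * H)) \ Bad := ⟨_, rfl⟩
  have hGcard : δ' / 2 * C ≤ G.card := by
    have h1 : D.card ≤ (D.filter (fun a => a < 1 + 2 * H)).card + 2 := by
      have h2 : D.card = (D.filter (fun a => a < 1 + 2 * H)).card +
          (D.filter (fun a => ¬ a < 1 + 2 * H)).card := (card_filter_add_card_filter_not _).symm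
      have h3 : (D.filter (fun a => ¬ a < 1 + 2 * H)).card ≤ ({C - 1, C} : Finset ℕ).card := by
        apply card_le_card
        intro a ha
        rw [mem_filter] at ha
        have h4 := mem_Icc.1 (hD ha.1)
        rw [mem_insert, Finset.mem_singleton]
        omega
      have h4 : ({C - 1, C} : Finset ℕ).card ≤ 2 := card_le_two
      omega
    have h2 := le_card_sdiff Bad (D.filter (fun a => a < 1 + 2 * H))
    rw [← hGd] at h2
    have h3 : (D.card : ℝ) ≤ G.card + Bad.card + 2 := by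
      have : D.card ≤ G.card + Bad.card + 2 := by omega
      exact_mod_cast this
    have h4 : 2 * (δ' / 16) * H ≤ δ' / 16 * C := by
      have : δ' / 16 * (2 * (H : ℝ)) ≤ δ' / 16 * C := mul_le_mul_of_nonneg_left hHr2 (by positivity)
      linarith
    have h5 : δ' * C ≤ δ * C := mul_le_mul_of_nonneg_right hδδ hC0.le
    rw [hη] at hBad
    linarith
  have hGmem : ∀ a ∈ G, a ∈ D ∧ 1 ≤ a ∧ a ≤ C ∧ GoodC b s η N (2 * N) a := by
    intro a ha
    rw [hGd, Finset.mem_sdiff, mem_filter] at ha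
    obtain ⟨⟨h1, h2⟩, h3⟩ := ha
    have h4 := mem_Icc.1 (hD h1)
    exact ⟨h1, h4.1, h4.2, hG a h4.1 h2 (fun hb1 => ho hb1 a h1) h3⟩
  obtain ⟨X, hX⟩ : ∃ X : ℝ, X = ((2 * N : ℕ) : ℝ) / Real.log ((2 * N : ℕ) : ℝ) := ⟨_, rfl⟩
  have hlM0 : 0 < Real.log ((2 * N : ℕ) : ℝ) := by
    apply Real.log_pos
    rw [h2Nr]
    linarith
  have hlM : Real.log ((2 * N : ℕ) : ℝ) ≤ 2 * L := by
    have h1 : ((2 * N : ℕ) : ℝ) ≤ (N : ℝ) ^ 2 := by
      rw [h2Nr]
      nlinarith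
    have h2 := Real.log_le_log (by linarith) h1
    rw [Real.log_pow, ← hL] at h2
    exact_mod_cast h2
  have hX0 : 0 < X := by rw [hX]; positivity
  have hXN : N / L ≤ X := by
    rw [hX, h2Nr]
    rw [h2Nr] at hlM hlM0
    calc N / L = 2 * N / (2 * L) := by field_simp
      _ ≤ 2 * N / Real.log (2 * N) := div_le_div_of_nonneg_left (by positivity) hlM0 hlM
  have hone : ∀ a ∈ G, s * (X / 8) ≤
      (((Ioc N (2 * N)).filter (fun m : ℕ => (q b m + a).Prime)).card : ℝ) := by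
    intro a ha
    obtain ⟨-, ha1, ha2, S, hS, hcc⟩ := hGmem a ha
    have haM : a ∈ Icc 1 (2 * N) := by
      rw [mem_Icc]
      omega
    have h3 := hx3 (2 * N) (by omega) a haM N (2 * N) (by omega) le_rfl
    have hfe : (Ioc N (2 * N)).filter (fun m : ℕ => (fv 1 b (a : ℤ) m).toNat.Prime) =
        (Ioc N (2 * N)).filter (fun m : ℕ => (q b m + a).Prime) := by
      apply filter_congr
      intro m _
      rw [fv_nat b hb]
    rw [hfe, gcd_val] at hcc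
    have e3 : eps 1 b * S * 1 * ((2 * N : ℕ) : ℝ) / Real.log ((2 * N : ℕ) : ℝ) = eps 1 b * S * 1 * X := by
      rw [hX]
      ring
    rw [e3] at hcc
    rw [← hX] at h3
    refine real2 (eps_ge b) hs hS hX0 hη0 (by rw [hη]; linarith) ?_ h3 hcc
    rw [hX, h2Nr]
    have : 2 * (N : ℝ) / Real.log (2 * N) / 4 = (2 * (N : ℝ) - N) / (2 * Real.log (2 * N)) := by
      rw [h2Nr] at hlM0
      field_simp
      ring
    rw [this]
  -- double counting
  have hdc : ∑ a ∈ G, ((Ioc N (2 * N)).filter (fun m : ℕ => (q b m + a).Prime)).card ≤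
      ∑ x ∈ Ioc N (2 * N), (Off (q b x) D).card := by
    calc ∑ a ∈ G, ((Ioc N (2 * N)).filter (fun m : ℕ => (q b m + a).Prime)).card
        = ∑ x ∈ Ioc N (2 * N), (G.filter (fun a => (q b x + a).Prime)).card := by
          simp only [card_filter]
          exact sum_comm
      _ ≤ _ := sum_le_sum fun x _ => card_le_card (by
          intro a ha
          rw [mem_filter] at ha
          unfold Off
          rw [mem_filter]
          exact ⟨(hGmem a ha.1).1, ha.2⟩)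
  have hlow : δ' / 2 * C * (s * (X / 8)) ≤ ∑ x ∈ Ioc N (2 * N), ((Off (q b x) D).card : ℝ) := by
    calc δ' / 2 * C * (s * (X / 8)) ≤ G.card * (s * (X / 8)) :=
          mul_le_mul_of_nonneg_right hGcard (by positivity)
      _ = ∑ a ∈ G, s * (X / 8) := by rw [sum_const, nsmul_eq_mul]
      _ ≤ ∑ a ∈ G, (((Ioc N (2 * N)).filter (fun m : ℕ => (q b m + a).Prime)).card : ℝ) := sum_le_sum hone
      _ ≤ _ := by exact_mod_cast hdc
  -- the upper bound for one row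
  have hlC : 7 / 10 * L ≤ Real.log C := by
    have h1 : (N : ℝ) ^ (7 / 10 : ℝ) ≤ C := by
      refine le_trans ?_ hC1
      exact Real.rpow_le_rpow_of_exponent_le hN1 (by linarith)
    have h2 := Real.log_le_log (Real.rpow_pos_of_pos hN0 _) h1
    rw [Real.log_rpow hN0, ← hL] at h2
    exact h2
  have hupx : ∀ x : ℕ, ((Off (q b x) D).card : ℝ) ≤ 2 * K * (C / L) := by
    intro x
    have h1 := hK (q b x) 1 C (by omega) (Off (q b x) D) (by
      intro a ha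
      unfold Off at ha
      exact (mem_filter.1 ha).2)
    have h2 : (Off (q b x) D).filter (fun a => 1 ≤ a ∧ a < 1 + C) = Off (q b x) D := by
      rw [filter_eq_self]
      intro a ha
      unfold Off at ha
      have h3 := mem_Icc.1 (hD (mem_filter.1 ha).1)
      omega
    rw [h2] at h1
    refine h1.trans ?_
    have h3 : K * (C : ℝ) / Real.log C ≤ K * C / (7 / 10 * L) :=
      div_le_div_of_nonneg_left (by positivity) (by positivity) hlC
    refine h3.trans ?_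
    have h4 : K * (C : ℝ) / (7 / 10 * L) = 10 / 7 * (K * (C / L)) := by
      field_simp
    rw [h4]
    have h5 : 0 ≤ K * (C / L) := by positivity
    linarith
  obtain ⟨R, hR⟩ : ∃ R : Finset ℕ, R = (Ioc N (2 * N)).filter (fun x : ℕ =>
      c * (C / L) ≤ ((Off (q b x) D).card : ℝ)) := ⟨_, rfl⟩
  rw [← hR]
  have hup : ∑ x ∈ Ioc N (2 * N), ((Off (q b x) D).card : ℝ) ≤
      R.card * (2 * K * (C / L)) + N * (c * (C / L)) := by
    have h1 : ∀ x ∈ Ioc N (2 * N), ((Off (q b x) D).card : ℝ) ≤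
        (if c * (C / L) ≤ ((Off (q b x) D).card : ℝ) then 2 * K * (C / L) else 0) + c * (C / L) := by
      intro x _
      have hcc : 0 ≤ c * (C / L) := by positivity
      split_ifs with h
      · have := hupx x
        linarith
      · push Not at h
        linarith
    refine (sum_le_sum h1).trans ?_
    rw [sum_add_distrib, sum_const, Nat.card_Ioc, ← sum_filter, ← hR, sum_const, nsmul_eq_mul,
      nsmul_eq_mul]
    have e : ((2 * N - N : ℕ) : ℝ) = N := by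
      rw [show 2 * N - N = N by omega]
    rw [e]
  have hfin := hlow.trans hup
  have h1 : δ' / 2 * C * (s * (N / L / 8)) ≤ R.card * (2 * K * (C / L)) + N * (c * (C / L)) := by
    refine le_trans ?_ hfin
    gcongr
  have hCL : 0 < (C : ℝ) / L := by positivity
  have h2 : δ' / 2 * C * (s * (N / L / 8)) = (δ' * s / 16 * N) * (C / L) := by
    field_simp
    ring
  have h3 : (δ' * s / 16 * N) * (C / L) ≤ (2 * K * R.card + c * N) * (C / L) := by
    rw [← h2]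
    refine h1.trans (le_of_eq ?_)
    ring
  have h4 := le_of_mul_le_mul_right h3 hCL
  have h5 : δ' * s = 64 * K * c := by
    rw [hc]
    field_simp
  have h6 : c * N ≤ K * (c * N) := by
    have : 0 ≤ c * N := by positivity
    nlinarith
  have h7 : 2 * K * (c * N) ≤ 2 * K * R.card := by
    have h8 : δ' * s / 16 * N = 4 * (K * (c * N)) := by
      rw [h5]
      ring
    rw [h8] at h4
    nlinarith
  exact le_of_mul_le_mul_left h7 (by positivity)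

/-- **prescribed offsets** -/
theorem off_main (b : ℤ) (hb : b = 0 ∨ b = -1) (ε δ : ℝ) (hε : 0 < ε) (hδ : 0 < δ) :
    ∃ c : ℝ, 0 < c ∧ ∀ (m : ℕ) (η : ℝ), 0 < η → ∃ B N₀ : ℕ, ∀ N : ℕ, N₀ ≤ N →
      ∀ C : ℕ, (N : ℝ) ^ (7 / 10 + ε) ≤ C → C ≤ N →
      ∀ D ⊆ Icc 1 C, (b = -1 → ∀ a ∈ D, Odd a) → δ * C ≤ D.card →
        ∃ X ⊆ Ioc N (2 * N), c * N ≤ (X.card : ℝ) ∧ ∀ x ∈ X,
          c * (C / Real.log N) ≤ ((Off (q b x) D).card : ℝ) ∧
          ∀ V ⊆ Off (q b x) D, ((rest m (Real.log N ^ B) V).card : ℝ) ≤ η * (Off (q b x) D).card := by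
  classical
  obtain ⟨c, hc, N₁, h1⟩ := off_count b hb ε δ hε hδ
  refine ⟨c, hc, fun m η hη => ?_⟩
  obtain ⟨B, N₂, h2⟩ := szem_row m η c hη hc
  refine ⟨B, N₁ + N₂ + 2, fun N hN C hC1 hC2 D hD ho hcard => ?_⟩
  refine ⟨_, filter_subset _ _, h1 N (by omega) C hC1 hC2 D hD ho hcard, fun x hx => ?_⟩
  rw [mem_filter, mem_Ioc] at hx
  have hN1 : (1 : ℝ) ≤ N := by exact_mod_cast (by omega : 1 ≤ N)
  have hC1' : (N : ℝ) ^ (7 / 10 : ℝ) ≤ C :=
    (Real.rpow_le_rpow_of_exponent_le hN1 (by linarith)).trans hC1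
  refine ⟨hx.2, fun V hV => h2 N (by omega) C hC1' hC2 (q b x) ?_ D hD hx.2 V hV⟩
  have h3 := q_cast b hb x
  have h4 : (N : ℤ) < x := by exact_mod_cast hx.1.1
  have h5 : (N : ℤ) ≤ ((q b x : ℕ) : ℤ) := by
    rw [h3]
    rcases hb with rfl | rfl
    · nlinarith
    · nlinarith
  exact_mod_cast h5

end Pool.Agent.P8H13.OP
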