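import Mathlib
import Pool.Agent.P8H13.OP.Top

/-!
# For almost all `α`, `x² + b x + ⌊α x^θ⌋` is prime for infinitely many `x`: conclusion (helper13)
-/

set_option autoImplicit false

namespace Pool.Agent.P8H13.OP

open Finset Filter Topology MeasureTheory

theorem log4 : 1 ≤ Real.log 4 ∧ Real.log 4 ≤ 14 / 10 := by
  have e : Real.log 4 = 2 * Real.log 2 := by
    rw [show (4 : ℝ) = 2 ^ 2 by norm_num, Real.log_pow]
    norm_num
  have h1 := Real.log_two_gt_d9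
  have h2 := Real.log_two_lt_d9
  rw [e]
  constructor <;> linarith

/-- a fixed proportion of every interval is hit beyond every point -/
theorem tail (b : ℤ) (hb : b = 0 ∨ b = -1) (θ : ℝ) (hθ : 7 / 10 < θ) (hθ1 : θ ≤ 1) :
    ∃ c : ℝ, 0 < c ∧ ∀ β γ : ℝ, 0 ≤ β → β < γ → γ ≤ 1 → ∀ m : ℕ,
      ENNReal.ofReal (c * (γ - β)) ≤
        volume {α : ℝ | α ∈ Set.Icc β γ ∧ ∃ x : ℕ, m ≤ x ∧ (q b x + ⌊α * (x : ℝ) ^ θ⌋₊).Prime} := by
  classical
  obtain ⟨c, hc, hrow⟩ := row b hb θ hθ hθ1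
  obtain ⟨C, hC1, hbt⟩ := bt
  have hC0 : 0 < C := by linarith
  refine ⟨c ^ 2 / (2646 * C ^ 2), by positivity, fun β γ hβ hβγ hγ m => ?_⟩
  obtain ⟨Δ, hΔ⟩ : ∃ Δ : ℝ, Δ = γ - β := ⟨_, rfl⟩
  have hΔ0 : 0 < Δ := by rw [hΔ]; linarith
  have hΔ1 : Δ ≤ 1 := by rw [hΔ]; linarith
  obtain ⟨N₀, hN₀⟩ := hrow β γ hβ hβγ hγ
  have hpow : Tendsto (fun x : ℕ => (x : ℝ) ^ θ) atTop atTop :=
    (tendsto_rpow_atTop (by linarith)).comp tendsto_natCast_atTop_atTop
  obtain ⟨X₂, hX₂⟩ := eventually_atTop.1 (hpow.eventually_ge_atTop (4 / Δ ^ 2))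
  obtain ⟨i₁, hi₁⟩ : ∃ i₁ : ℕ, i₁ = N₀ + m + X₂ + 1 := ⟨_, rfl⟩
  have hbig : ∀ i : ℕ, i₁ ≤ 4 ^ (i + i₁ + 1) := by
    intro i
    have h1 : i + i₁ + 1 < 4 ^ (i + i₁ + 1) := Nat.lt_pow_self (by norm_num)
    omega
  have hex : ∀ i : ℕ, ∃ x : ℕ, 4 ^ (i + i₁ + 1) < x ∧ x ≤ 2 * 4 ^ (i + i₁ + 1) ∧
      c * (γ - β) * ((x : ℝ) ^ θ / Real.log x) ≤ ((Row b θ β γ x).card : ℝ) := fun i =>
    hN₀ _ (le_trans (by omega : N₀ ≤ i₁) (hbig i))
  choose X hXa hXb hXc using hex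
  have hX0 : ∀ i, (0 : ℝ) < X i := by
    intro i
    have h1 : 0 < X i := lt_of_le_of_lt (Nat.zero_le _) (hXa i)
    exact_mod_cast h1
  obtain ⟨s, hs⟩ : ∃ s : ℕ → ℝ, s = fun i => (X i : ℝ) ^ θ := ⟨_, rfl⟩
  have hs0 : ∀ i, 0 < s i := by
    intro i
    rw [hs]
    exact Real.rpow_pos_of_pos (hX0 i) _
  have hsΔ : ∀ i, 4 / Δ ^ 2 ≤ s i := by
    intro i
    rw [hs]
    apply hX₂
    have h1 := hXa i
    have h2 := hbig i
    omega
  -- logarithms
  have hl1 : ∀ i : ℕ, ((i : ℝ) + i₁ + 1) * Real.log 4 ≤ Real.log (X i) := by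
    intro i
    have h1 : ((4 : ℝ) ^ (i + i₁ + 1)) ≤ X i := by exact_mod_cast (hXa i).le
    have h2 := Real.log_le_log (by positivity) h1
    rw [Real.log_pow] at h2
    push_cast at h2
    exact h2
  have hl2 : ∀ i : ℕ, Real.log (X i) ≤ Real.log 2 + ((i : ℝ) + i₁ + 1) * Real.log 4 := by
    intro i
    have h1 : (X i : ℝ) ≤ 2 * (4 : ℝ) ^ (i + i₁ + 1) := by exact_mod_cast hXb i
    have h2 := Real.log_le_log (hX0 i) h1
    rw [Real.log_mul (by norm_num) (by positivity), Real.log_pow] at h2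
    push_cast at h2
    exact h2
  have hJ1 : ∀ i : ℕ, 1 ≤ (i : ℝ) + i₁ + 1 := by
    intro i
    have h1 : (0 : ℝ) ≤ i := Nat.cast_nonneg i
    have h2 : (0 : ℝ) ≤ i₁ := Nat.cast_nonneg i₁
    linarith
  obtain ⟨l4a, l4b⟩ := log4
  have l2a := Real.log_two_gt_d9
  have l2b := Real.log_two_lt_d9
  have l42 : Real.log 4 = 2 * Real.log 2 := by
    rw [show (4 : ℝ) = 2 ^ 2 by norm_num, Real.log_pow]
    norm_num
  have hl3 : ∀ i : ℕ, (i : ℝ) + i₁ + 1 ≤ Real.log (X i) := by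
    intro i
    have h1 := hl1 i
    have h2 := hJ1 i
    nlinarith
  have hl4 : ∀ i : ℕ, Real.log (X i) ≤ 3 * ((i : ℝ) + i₁ + 1) := by
    intro i
    have h1 := hl2 i
    have h2 := hJ1 i
    nlinarith
  have hls : ∀ i : ℕ, Real.log (s i) = θ * Real.log (X i) := by
    intro i
    rw [hs]
    exact Real.log_rpow (hX0 i) θ
  have hB : ∀ i : ℕ, ∀ a ∈ Row b θ β γ (X i), (q b (X i) + a).Prime := by
    intro i a ha
    unfold Row at ha
    exact (mem_filter.1 ha).2.2.2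
  obtain ⟨G, hG⟩ : ∃ G : ℕ → Set ℝ, G = fun i => F (s i) (Row b θ β γ (X i)) := ⟨_, rfl⟩
  have hvol : ∀ i, (volume (G i)).toReal = (Row b θ β γ (X i)).card / s i := by
    intro i
    rw [hG]
    exact vol_F (hs0 i) _
  have hlow : ∀ i : ℕ, c * Δ / (3 * ((i : ℝ) + i₁ + 1)) ≤ (volume (G i)).toReal := by
    intro i
    rw [hvol, le_div_iff₀ (hs0 i)]
    have h1 := hXc i
    rw [← hΔ] at h1
    refine le_trans ?_ h1
    have h2 : (X i : ℝ) ^ θ = s i := by rw [hs]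
    rw [h2]
    have h3 : 0 < Real.log (X i) := lt_of_lt_of_le (by have := hJ1 i; linarith) (hl3 i)
    have h4 := hJ1 i
    have h5 : c * Δ * (s i / (3 * ((i : ℝ) + i₁ + 1))) ≤ c * Δ * (s i / Real.log (X i)) := by
      apply mul_le_mul_of_nonneg_left _ (by positivity)
      exact div_le_div_of_nonneg_left (hs0 i).le h3 (hl4 i)
    calc c * Δ / (3 * ((i : ℝ) + i₁ + 1)) * s i = c * Δ * (s i / (3 * ((i : ℝ) + i₁ + 1))) := by ring
      _ ≤ _ := h5
  have hup : ∀ i : ℕ, (volume (G i)).toReal ≤ 6 * C * Δ / ((i : ℝ) + i₁ + 1) := by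
    intro i
    rw [hvol, div_le_iff₀ (hs0 i)]
    obtain ⟨R, hR⟩ : ∃ R : ℕ, R = ⌈Δ * s i⌉₊ := ⟨_, rfl⟩
    have hsi := hs0 i
    have h1 : 4 ≤ Δ ^ 2 * s i := by
      have h2 := hsΔ i
      rw [div_le_iff₀ (by positivity)] at h2
      linarith
    have h1' : 4 ≤ Δ * s i := by nlinarith
    have hRle : (R : ℝ) ≤ 2 * (Δ * s i) := by
      have h2 := Nat.ceil_lt_add_one (show 0 ≤ Δ * s i by positivity)
      rw [hR]
      linarith
    have hRge : Δ * s i ≤ R := by rw [hR]; exact Nat.le_ceil _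
    have hR2 : 2 ≤ R := by
      have : (2 : ℝ) ≤ R := by linarith
      exact_mod_cast this
    have h3 := hbt (q b (X i)) ⌈β * s i⌉₊ R hR2 (Row b θ β γ (X i)) (hB i)
    have h4 : (Row b θ β γ (X i)).filter (fun a => ⌈β * s i⌉₊ ≤ a ∧ a < ⌈β * s i⌉₊ + R) =
        Row b θ β γ (X i) := by
      rw [filter_eq_self]
      intro a ha
      unfold Row at ha
      obtain ⟨-, h5, h6, -⟩ := mem_filter.1 ha
      have h7 : (X i : ℝ) ^ θ = s i := by rw [hs]
      rw [h7] at h5 h6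
      refine ⟨Nat.ceil_le.2 h5, ?_⟩
      have h8 : β * s i ≤ ⌈β * s i⌉₊ := Nat.le_ceil _
      have h9 : γ = β + Δ := by rw [hΔ]; ring
      rw [h9] at h6
      have h10 : (a : ℝ) < ⌈β * s i⌉₊ + R := by nlinarith
      exact_mod_cast h10
    rw [h4] at h3
    refine h3.trans ?_
    have hlog : ((i : ℝ) + i₁ + 1) / 3 ≤ Real.log R := by
      have h5 : Real.log (Δ * s i) ≤ Real.log R := Real.log_le_log (by positivity) hRge
      have h6 : s i ≤ (Δ * s i) ^ 2 := by nlinarith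
      have h7 := Real.log_le_log hsi h6
      rw [Real.log_pow] at h7
      push_cast at h7
      rw [hls] at h7
      have h8 := hl3 i
      have h9 := hJ1 i
      nlinarith
    have hJ := hJ1 i
    calc C * R / Real.log R ≤ C * (2 * (Δ * s i)) / (((i : ℝ) + i₁ + 1) / 3) := by
          apply div_le_div₀ (by positivity) _ (by linarith) hlog
          exact mul_le_mul_of_nonneg_left hRle hC0.le
      _ = 6 * C * Δ / ((i : ℝ) + i₁ + 1) * s i := by
          field_simp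
          ring
  have hov : ∀ i k : ℕ, i < k → (volume (G i ∩ G k)).toReal ≤
      12 * C * (volume (G i)).toReal / ((k : ℝ) - i) := by
    intro i k hik
    have hki : (1 : ℝ) ≤ (k : ℝ) - i := by
      have : (i : ℝ) + 1 ≤ k := by exact_mod_cast hik
      linarith
    have hXik : (X i : ℝ) ≤ X k := by
      have h1 := hXb i
      have h2 := hXa k
      have h3 : 2 * 4 ^ (i + i₁ + 1) ≤ 4 ^ (k + i₁ + 1) := by
        calc 2 * 4 ^ (i + i₁ + 1) ≤ 4 ^ (i + i₁ + 1 + 1) := by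
              rw [pow_succ]
              omega
          _ ≤ 4 ^ (k + i₁ + 1) := Nat.pow_le_pow_right (by norm_num) (by omega)
      exact_mod_cast (by omega : X i ≤ X k)
    have hst : s i ≤ s k := by
      rw [hs]
      exact Real.rpow_le_rpow (hX0 i).le hXik (by linarith)
    have hsi := hs0 i
    have hsk := hs0 k
    obtain ⟨r, hr⟩ : ∃ r : ℝ, r = s k / s i := ⟨_, rfl⟩
    have hr1 : 1 ≤ r := by rw [hr, one_le_div hsi]; exact hst
    obtain ⟨R, hR⟩ : ∃ R : ℕ, R = ⌈3 * r⌉₊ := ⟨_, rfl⟩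
    have hRle : (R : ℝ) ≤ 4 * r := by
      have h2 := Nat.ceil_lt_add_one (show 0 ≤ 3 * r by linarith)
      rw [hR]
      linarith
    have hRge : 3 * r ≤ R := by rw [hR]; exact Nat.le_ceil _
    have hR2 : 2 ≤ R := by
      have : (2 : ℝ) ≤ R := by linarith
      exact_mod_cast this
    have hlog : ((k : ℝ) - i) / 3 ≤ Real.log R := by
      have h5 : Real.log r ≤ Real.log R := Real.log_le_log (by linarith) (by linarith)
      have h6 : Real.log r = θ * Real.log (X k) - θ * Real.log (X i) := by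
        rw [hr, Real.log_div hsk.ne' hsi.ne', hls, hls]
      have h7 := hl1 k
      have h8 := hl2 i
      have h9 : Real.log 2 * ((k : ℝ) - i) ≤ Real.log (X k) - Real.log (X i) := by
        rw [l42] at h7 h8
        nlinarith
      have h10 : (7 / 10 : ℝ) * (Real.log 2 * ((k : ℝ) - i)) ≤ θ * (Real.log (X k) - Real.log (X i)) :=
        mul_le_mul hθ.le h9 (by nlinarith) (by linarith)
      nlinarith
    have hK : ∀ b₀ : ℕ, (((Row b θ β γ (X k)).filter (fun a => b₀ ≤ a ∧ a < b₀ + ⌈3 * (s k / s i)⌉₊)).card : ℝ) ≤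
        12 * C * r / ((k : ℝ) - i) := by
      intro b₀
      rw [← hr, ← hR]
      refine (hbt (q b (X k)) b₀ R hR2 (Row b θ β γ (X k)) (hB k)).trans ?_
      calc C * R / Real.log R ≤ C * (4 * r) / (((k : ℝ) - i) / 3) := by
            apply div_le_div₀ (by positivity) _ (by linarith) hlog
            exact mul_le_mul_of_nonneg_left hRle hC0.le
        _ = 12 * C * r / ((k : ℝ) - i) := by
            field_simp
            ring
    have hov := overlap hsi hsk hst (Row b θ β γ (X i)) (Row b θ β γ (X k)) (12 * C * r / ((k : ℝ) - i))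
      (by positivity) hK
    have e : (volume (G i ∩ G k)).toReal = (volume (F (s i) (Row b θ β γ (X i)) ∩
        F (s k) (Row b θ β γ (X k)))).toReal := by rw [hG]
    rw [e, hvol]
    refine hov.trans (le_of_eq ?_)
    rw [hr]
    have hki0 : (k : ℝ) - i ≠ 0 := by
      intro h
      linarith
    field_simp
  obtain ⟨n, hn⟩ := union_ge c C Δ hc hC1 hΔ0 i₁ G (fun i => by rw [hG]; exact meas_F _ _)
    (fun i => by rw [hG]; exact fin_F (hs0 i) _) hlow hup hov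
  rw [← hΔ]
  refine (ENNReal.ofReal_le_of_le_toReal hn).trans (measure_mono ?_)
  intro α hα
  simp only [Set.mem_iUnion, exists_prop] at hα
  obtain ⟨i, -, hα⟩ := hα
  rw [hG] at hα
  simp only at hα
  rw [hs] at hα
  have h1 : 1 ≤ X i := lt_of_le_of_lt (Nat.zero_le _) (hXa i)
  obtain ⟨h2, h3⟩ := F_sub b θ β γ (X i) h1 α hα
  refine ⟨h2, X i, ?_, h3⟩
  exact le_trans (by omega : m ≤ i₁) ((hbig i).trans (hXa i).le)

/-- **almost all `α`** -/
theorem main (b : ℤ) (hb : b = 0 ∨ b = -1) (θ : ℝ) (hθ : 7 / 10 < θ) (hθ1 : θ ≤ 1) :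
    ∀ᵐ α : ℝ, α ∈ Set.Ioo (0 : ℝ) 1 → ∃ᶠ x : ℕ in atTop, (q b x + ⌊α * (x : ℝ) ^ θ⌋₊).Prime := by
  obtain ⟨c, hc, h⟩ := tail b hb θ hθ hθ1
  obtain ⟨E, hE⟩ : ∃ E : ℕ → Set ℝ, E = fun x => {α : ℝ | (q b x + ⌊α * (x : ℝ) ^ θ⌋₊).Prime} := ⟨_, rfl⟩
  have hEm : ∀ x, MeasurableSet (E x) := by
    intro x
    rw [hE]
    have h1 : Measurable (fun α : ℝ => ⌊α * (x : ℝ) ^ θ⌋₊) :=
      Nat.measurable_floor.comp (measurable_id.mul_const _)
    exact h1 (MeasurableSet.of_discrete (s := {n : ℕ | (q b x + n).Prime}))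
  obtain ⟨T, hT⟩ : ∃ T : ℕ → Set ℝ, T = fun m => ⋃ x ∈ Set.Ici m, E x := ⟨_, rfl⟩
  have hTm : ∀ m, MeasurableSet (T m) := by
    intro m
    rw [hT]
    exact MeasurableSet.biUnion (Set.to_countable _) fun x _ => hEm x
  have hTanti : Antitone T := by
    intro m m' hmm'
    rw [hT]
    exact Set.biUnion_subset_biUnion_left (Set.Ici_subset_Ici.2 hmm')
  have hG : MeasurableSet (⋂ m, T m) := MeasurableSet.iInter hTm
  have hfull := full (⋂ m, T m) hG c hc (fun β γ hβ hβγ hγ => by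
    have hanti : Antitone (fun m => T m ∩ Set.Icc β γ) := fun m m' hmm' =>
      Set.inter_subset_inter_left _ (hTanti hmm')
    have ht := tendsto_measure_iInter_atTop (μ := volume) (s := fun m => T m ∩ Set.Icc β γ)
      (fun m => ((hTm m).inter measurableSet_Icc).nullMeasurableSet) hanti
      ⟨0, ne_top_of_le_ne_top (by rw [Real.volume_Icc]; exact ENNReal.ofReal_ne_top)
        (measure_mono (Set.inter_subset_right (s := T 0) (t := Set.Icc β γ)))⟩
    rw [← Set.iInter_inter] at ht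
    refine ge_of_tendsto' ht fun m => ?_
    refine (h β γ hβ hβγ hγ m).trans (measure_mono ?_)
    rintro α ⟨h1, x, h2, h3⟩
    refine ⟨?_, h1⟩
    rw [hT]
    simp only [Set.mem_iUnion, exists_prop]
    refine ⟨x, h2, ?_⟩
    rw [hE]
    exact h3)
  filter_upwards [hfull] with α hα h01
  rw [frequently_atTop]
  intro m
  have h1 := Set.mem_iInter.1 (hα h01) m
  rw [hT] at h1
  simp only [Set.mem_iUnion, exists_prop] at h1
  obtain ⟨x, h2, h3⟩ := h1
  rw [hE] at h3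
  exact ⟨x, h2, h3⟩

end Pool.Agent.P8H13.OP
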